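import Mathlib

/-!
# Random words avoid few tests of a code
-/

namespace Pool.Agent.Lib_helper64.KSD

open Finset

theorem two_card_le {J B : Type*} [DecidableEq J] [DecidableEq B] (f : J → B) (Y : Finset J) :
    2 * Y.card ≤ 2 * (Y.image f).card + (Y.offDiag.filter fun p => f p.1 = f p.2).card := by
  induction Y using Finset.induction_on with
  | empty => simp
  | insert a Y ha ih =>
    rw [card_insert_of_notMem ha, image_insert]
    by_cases h : f a ∈ Y.image f
    · rw [insert_eq_of_mem h]
      obtain ⟨a', ha', hfa⟩ := mem_image.1 h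
      have hne : a' ≠ a := fun h' => ha (h' ▸ ha')
      have hsub : insert (a, a') (insert (a', a) (Y.offDiag.filter fun p => f p.1 = f p.2)) ⊆
          (insert a Y).offDiag.filter fun p => f p.1 = f p.2 := by
        intro p hp
        rw [mem_insert, mem_insert] at hp
        rcases hp with rfl | rfl | hp
        · exact mem_filter.2 ⟨mem_offDiag.2 ⟨mem_insert_self _ _, mem_insert_of_mem ha',
            hne.symm⟩, hfa.symm⟩
        · exact mem_filter.2 ⟨mem_offDiag.2 ⟨mem_insert_of_mem ha', mem_insert_self _ _, hne⟩,
            hfa⟩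
        · rw [mem_filter, mem_offDiag] at hp
          exact mem_filter.2 ⟨mem_offDiag.2 ⟨mem_insert_of_mem hp.1.1,
            mem_insert_of_mem hp.1.2.1, hp.1.2.2⟩, hp.2⟩
      have h1 : (a', a) ∉ Y.offDiag.filter fun p => f p.1 = f p.2 := by
        intro h'
        rw [mem_filter, mem_offDiag] at h'
        exact ha h'.1.2.1
      have h2 : (a, a') ∉ insert (a', a) (Y.offDiag.filter fun p => f p.1 = f p.2) := by
        intro h'
        rw [mem_insert] at h'
        rcases h' with h' | h'
        · exact hne (Prod.ext_iff.1 h').1.symm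
        · rw [mem_filter, mem_offDiag] at h'
          exact ha h'.1.1
      have h3 := card_le_card hsub
      rw [card_insert_of_notMem h2, card_insert_of_notMem h1] at h3
      omega
    · rw [card_insert_of_notMem h]
      have hsub : (Y.offDiag.filter fun p => f p.1 = f p.2) ⊆
          (insert a Y).offDiag.filter fun p => f p.1 = f p.2 := by
        refine filter_subset_filter _ fun p hp => ?_
        rw [mem_offDiag] at hp ⊢
        exact ⟨mem_insert_of_mem hp.1, mem_insert_of_mem hp.2.1, hp.2.2⟩
      have h3 := card_le_card hsub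
      omega

section

variable {I B J : Type*} [Fintype I] [Fintype B] [DecidableEq I] [DecidableEq B] [DecidableEq J]

omit [Fintype B] [DecidableEq I] in
/-- The number of letters of `d` words of a code in all positions is at least `d |I| / 2`. -/
theorem sum_image_ge (y : J → I → B) (d : ℕ) (hd : 0 < d)
    (hy : ∀ j j', j ≠ j' → d * (univ.filter fun i => y j i = y j' i).card ≤ Fintype.card I)
    (Y : Finset J) (hY : Y.card = d) :
    d * Fintype.card I ≤ 2 * ∑ i, (Y.image fun j => y j i).card := by
  have h1 : ∑ _i : I, 2 * Y.card ≤ ∑ i, (2 * (Y.image fun j => y j i).card +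
      (Y.offDiag.filter fun p => y p.1 i = y p.2 i).card) :=
    sum_le_sum fun i _ => two_card_le (fun j => y j i) Y
  rw [sum_add_distrib, sum_const, card_univ, smul_eq_mul, hY, ← mul_sum] at h1
  have h2 : ∑ i, (Y.offDiag.filter fun p => y p.1 i = y p.2 i).card =
      ∑ p ∈ Y.offDiag, (univ.filter fun i => y p.1 i = y p.2 i).card := by
    simp only [card_filter]
    rw [sum_comm]
  have h3 : d * ∑ p ∈ Y.offDiag, (univ.filter fun i => y p.1 i = y p.2 i).card ≤
      d * (d * Fintype.card I) := by
    rw [mul_sum]
    calc ∑ p ∈ Y.offDiag, d * (univ.filter fun i => y p.1 i = y p.2 i).card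
        ≤ ∑ _p ∈ Y.offDiag, Fintype.card I :=
          sum_le_sum fun p hp => hy _ _ (mem_offDiag.1 hp).2.2
      _ = Y.offDiag.card * Fintype.card I := by rw [sum_const, smul_eq_mul]
      _ ≤ (d * d) * Fintype.card I := by
          refine Nat.mul_le_mul_right _ ?_
          rw [offDiag_card, hY]
          exact Nat.sub_le _ _
      _ = _ := by ring
  have h4 := Nat.le_of_mul_le_mul_left h3 hd
  rw [h2] at h1
  nlinarith

omit [DecidableEq I] [DecidableEq B] in
theorem prod_sub_le (n : I → ℕ) (lam : ℕ) (hB : 0 < Fintype.card B)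
    (hn : ∀ i, n i ≤ Fintype.card B) (hs : Fintype.card B * lam ≤ ∑ i, n i) :
    2 ^ lam * ∏ i, (Fintype.card B - n i) ≤ Fintype.card B ^ Fintype.card I := by
  set β := Fintype.card B with hβ
  have hβ0 : (0 : ℝ) < β := by exact_mod_cast hB
  have h1 : ∀ i, ((β - n i : ℕ) : ℝ) ≤ β * Real.exp (-(n i / β)) := by
    intro i
    rw [Nat.cast_sub (hn i)]
    have h2 := Real.add_one_le_exp (-((n i : ℝ) / β))
    have h3 : (β : ℝ) - n i = β * (-((n i : ℝ) / β) + 1) := by field_simp; ring
    rw [h3]
    exact mul_le_mul_of_nonneg_left h2 hβ0.le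
  have h2 : (∏ i, ((β - n i : ℕ) : ℝ)) ≤ β ^ Fintype.card I * Real.exp (-lam) := by
    calc (∏ i, ((β - n i : ℕ) : ℝ)) ≤ ∏ i, ((β : ℝ) * Real.exp (-(n i / β))) :=
          prod_le_prod (fun i _ => Nat.cast_nonneg _) fun i _ => h1 i
      _ = β ^ Fintype.card I * Real.exp (∑ i, -((n i : ℝ) / β)) := by
          rw [prod_mul_distrib, prod_const, card_univ, Real.exp_sum]
      _ ≤ _ := by
          refine mul_le_mul_of_nonneg_left ?_ (by positivity)
          apply Real.exp_le_exp.2
          rw [sum_neg_distrib, neg_le_neg_iff, ← sum_div, le_div_iff₀ hβ0]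
          have : ((β * lam : ℕ) : ℝ) ≤ ((∑ i, n i : ℕ) : ℝ) := by exact_mod_cast hs
          push_cast at this
          linarith
  have h3 : (2 : ℝ) ^ lam ≤ Real.exp lam := by
    have : (2 : ℝ) ≤ Real.exp 1 := by
      have := Real.add_one_le_exp (1 : ℝ)
      linarith
    calc (2 : ℝ) ^ lam ≤ (Real.exp 1) ^ lam := pow_le_pow_left₀ (by norm_num) this _
      _ = Real.exp lam := by rw [← Real.exp_nat_mul, mul_one]
  have h4 : ((2 ^ lam * ∏ i, (β - n i) : ℕ) : ℝ) ≤ ((β ^ Fintype.card I : ℕ) : ℝ) := by
    push_cast
    calc (2 : ℝ) ^ lam * ∏ i, ((β - n i : ℕ) : ℝ)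
        ≤ Real.exp lam * (β ^ Fintype.card I * Real.exp (-lam)) :=
          mul_le_mul h3 h2 (prod_nonneg fun i _ => Nat.cast_nonneg _) (Real.exp_pos _).le
      _ = β ^ Fintype.card I * (Real.exp lam * Real.exp (-lam)) := by ring
      _ = β ^ Fintype.card I := by rw [← Real.exp_add, add_neg_cancel, Real.exp_zero, mul_one]
  exact_mod_cast h4

/-- the word `x` avoids the word `y j` -/
def Avoids (y : J → I → B) (x : I → B) (j : J) : Prop := ∀ i, x i ≠ y j i

instance (y : J → I → B) (x : I → B) (j : J) : Decidable (Avoids y x j) := by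
  unfold Avoids
  infer_instance

theorem avoid_count (y : J → I → B) (d lam : ℕ) (hd : 0 < d) (hB : 0 < Fintype.card B)
    (hy : ∀ j j', j ≠ j' → d * (univ.filter fun i => y j i = y j' i).card ≤ Fintype.card I)
    (hl : 2 * Fintype.card B * lam ≤ d * Fintype.card I)
    (Y : Finset J) (hY : d ≤ Y.card) :
    2 ^ lam * (univ.filter fun x : I → B => ∀ j ∈ Y, Avoids y x j).card ≤
      Fintype.card B ^ Fintype.card I := by
  obtain ⟨Y', hY', hcard⟩ := exists_subset_card_eq hY
  have hsub : (univ.filter fun x : I → B => ∀ j ∈ Y, Avoids y x j) ⊆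
      Fintype.piFinset fun i => (univ \ (Y'.image fun j => y j i) : Finset B) := by
    intro x hx
    rw [mem_filter] at hx
    rw [Fintype.mem_piFinset]
    intro i
    refine mem_sdiff.2 ⟨mem_univ _, fun h => ?_⟩
    obtain ⟨j, hj, hji⟩ := mem_image.1 h
    exact hx.2 j (hY' hj) i hji.symm
  have h1 := card_le_card hsub
  rw [Fintype.card_piFinset] at h1
  have h2 : ∀ i, (univ \ (Y'.image fun j => y j i) : Finset B).card =
      Fintype.card B - (Y'.image fun j => y j i).card := fun i => by
    rw [card_sdiff_of_subset (subset_univ _), card_univ]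
  rw [prod_congr rfl fun i _ => h2 i] at h1
  refine (Nat.mul_le_mul_left _ h1).trans ?_
  refine prod_sub_le _ lam hB (fun i => card_le_univ _) ?_
  have h3 := sum_image_ge y d hd hy Y' hcard
  have h4 : 2 * (Fintype.card B * lam) ≤ 2 * ∑ i, (Y'.image fun j => y j i).card := by
    calc 2 * (Fintype.card B * lam) = 2 * Fintype.card B * lam := by ring
      _ ≤ d * Fintype.card I := hl
      _ ≤ _ := h3
  exact Nat.le_of_mul_le_mul_left h4 (by norm_num)

theorem card_fix (i : I) (b : B) :
    Fintype.card B * (univ.filter fun x : I → B => x i = b).card =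
      Fintype.card B ^ Fintype.card I := by
  have h1 : (univ.filter fun x : I → B => x i = b) =
      Fintype.piFinset fun i' => if i' = i then {b} else univ := by
    ext x
    rw [mem_filter, Fintype.mem_piFinset]
    constructor
    · rintro ⟨-, h⟩ i'
      split_ifs with hi
      · rw [hi]
        exact mem_singleton.2 h
      · exact mem_univ _
    · intro h
      have := h i
      rw [if_pos rfl, mem_singleton] at this
      exact ⟨mem_univ _, this⟩
  rw [h1, Fintype.card_piFinset]
  have h2 : ∀ i', (if i' = i then ({b} : Finset B) else univ).card =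
      if i' = i then 1 else Fintype.card B := by
    intro i'
    split_ifs <;> simp
  rw [prod_congr rfl fun i' _ => h2 i', ← mul_prod_erase univ _ (mem_univ i), if_pos rfl, one_mul]
  have h3 : ∏ x ∈ univ.erase i, (if x = i then 1 else Fintype.card B) =
      Fintype.card B ^ (Fintype.card I - 1) := by
    rw [prod_congr rfl fun x hx => if_neg (ne_of_mem_erase hx), prod_const,
      card_erase_of_mem (mem_univ i), card_univ]
  rw [h3, ← pow_succ']
  congr 1
  have : 0 < Fintype.card I := Fintype.card_pos_iff.2 ⟨i⟩
  omega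

variable [Fintype J]

/-- the words that avoid at least half of the tests -/
abbrev Good (y : J → I → B) : Type _ :=
  {x : I → B // Fintype.card J ≤ 2 * (univ.filter fun j => Avoids y x j).card}

omit [DecidableEq J] in
theorem card_good (y : J → I → B) (hI : 0 < Fintype.card I)
    (hB : Fintype.card B = 4 * Fintype.card I) (hJ : 0 < Fintype.card J) :
    Fintype.card B ^ Fintype.card I ≤ 2 * Fintype.card (Good y) := by
  have hB0 : 0 < Fintype.card B := by omega
  set X0 := Fintype.card B ^ Fintype.card I with hX0
  -- hits of one test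
  have h1 : ∀ j, 4 * (univ.filter fun x : I → B => ¬ Avoids y x j).card ≤ X0 := by
    intro j
    have hsub : (univ.filter fun x : I → B => ¬ Avoids y x j) ⊆
        univ.biUnion fun i => univ.filter fun x : I → B => x i = y j i := by
      intro x hx
      rw [mem_filter, Avoids] at hx
      have := hx.2
      push Not at this
      obtain ⟨i, hi⟩ := this
      exact mem_biUnion.2 ⟨i, mem_univ _, mem_filter.2 ⟨mem_univ _, hi⟩⟩
    have h2 := (card_le_card hsub).trans card_biUnion_le
    have h3 : Fintype.card B * ∑ i, (univ.filter fun x : I → B => x i = y j i).card =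
        Fintype.card I * X0 := by
      rw [mul_sum, sum_congr rfl fun i _ => card_fix i (y j i), sum_const, card_univ,
        smul_eq_mul]
    have h4 : Fintype.card I * (4 * (univ.filter fun x : I → B => ¬ Avoids y x j).card) ≤
        Fintype.card I * X0 := by
      calc Fintype.card I * (4 * (univ.filter fun x : I → B => ¬ Avoids y x j).card)
          = Fintype.card B * (univ.filter fun x : I → B => ¬ Avoids y x j).card := by
            rw [hB]; ring
        _ ≤ Fintype.card B * ∑ i, (univ.filter fun x : I → B => x i = y j i).card :=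
            Nat.mul_le_mul_left _ h2
        _ = _ := h3
    exact Nat.le_of_mul_le_mul_left h4 hI
  -- double counting
  have h2 : 4 * ∑ x : I → B, (univ.filter fun j => ¬ Avoids y x j).card ≤
      Fintype.card J * X0 := by
    have : ∑ x : I → B, (univ.filter fun j => ¬ Avoids y x j).card =
        ∑ j, (univ.filter fun x : I → B => ¬ Avoids y x j).card := by
      simp only [card_filter]
      rw [sum_comm]
    rw [this, mul_sum]
    calc ∑ j, 4 * (univ.filter fun x : I → B => ¬ Avoids y x j).card ≤ ∑ _j : J, X0 :=
          sum_le_sum fun j _ => h1 j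
      _ = _ := by rw [sum_const, card_univ, smul_eq_mul]
  set bad := univ.filter fun x : I → B =>
    ¬ Fintype.card J ≤ 2 * (univ.filter fun j => Avoids y x j).card with hbad
  have hsplit : ∀ x : I → B, (univ.filter fun j => Avoids y x j).card +
      (univ.filter fun j => ¬ Avoids y x j).card = Fintype.card J := by
    intro x
    rw [card_filter_add_card_filter_not, card_univ]
  have h3 : bad.card * Fintype.card J ≤
      2 * ∑ x : I → B, (univ.filter fun j => ¬ Avoids y x j).card := by
    calc bad.card * Fintype.card J = ∑ _x ∈ bad, Fintype.card J := by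
          rw [sum_const, smul_eq_mul]
      _ ≤ ∑ x ∈ bad, 2 * (univ.filter fun j => ¬ Avoids y x j).card := by
          refine sum_le_sum fun x hx => ?_
          have h4 := (mem_filter.1 hx).2
          have h5 := hsplit x
          omega
      _ ≤ ∑ x : I → B, 2 * (univ.filter fun j => ¬ Avoids y x j).card :=
          sum_le_sum_of_subset (subset_univ _)
      _ = _ := by rw [mul_sum]
  have h4 : Fintype.card J * (2 * bad.card) ≤ Fintype.card J * X0 := by
    calc Fintype.card J * (2 * bad.card) = 2 * (bad.card * Fintype.card J) := by ring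
      _ ≤ 2 * (2 * ∑ x : I → B, (univ.filter fun j => ¬ Avoids y x j).card) :=
          Nat.mul_le_mul_left _ h3
      _ = 4 * ∑ x : I → B, (univ.filter fun j => ¬ Avoids y x j).card := by ring
      _ ≤ _ := h2
  have h5 : 2 * bad.card ≤ X0 := Nat.le_of_mul_le_mul_left h4 hJ
  have h6 : Fintype.card (Good y) + bad.card = X0 := by
    rw [Fintype.card_subtype, hbad, card_filter_add_card_filter_not, card_univ,
      Fintype.card_fun]
  omega

/-- The hypothesis of `encode` for the restricted words. -/
theorem good_count (y : J → I → B) (d lam : ℕ) (hd : 0 < d) (hI : 0 < Fintype.card I)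
    (hB : Fintype.card B = 4 * Fintype.card I) (hJ : 0 < Fintype.card J)
    (hy : ∀ j j', j ≠ j' → d * (univ.filter fun i => y j i = y j' i).card ≤ Fintype.card I)
    (hl : 8 * (lam + 1) ≤ d) (Y : Finset J) (hY : d ≤ Y.card) :
    2 ^ lam * (univ.filter fun x : Good y => ∀ j ∈ Y, Avoids y x.1 j).card ≤
      Fintype.card (Good y) := by
  have h1 := avoid_count y d (lam + 1) hd (by omega) hy (by
    rw [hB]
    calc 2 * (4 * Fintype.card I) * (lam + 1) = 8 * (lam + 1) * Fintype.card I := by ring
      _ ≤ d * Fintype.card I := Nat.mul_le_mul_right _ hl) Y hY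
  have h2 := card_good y hI hB hJ
  have h3 : (univ.filter fun x : Good y => ∀ j ∈ Y, Avoids y x.1 j).card ≤
      (univ.filter fun x : I → B => ∀ j ∈ Y, Avoids y x j).card := by
    refine card_le_card_of_injOn (fun x => x.1) (fun x hx => ?_) ?_
    · have := (mem_filter.1 hx).2
      exact mem_coe.2 (mem_filter.2 ⟨mem_univ _, this⟩)
    · intro a _ b _ h
      exact Subtype.ext h
  have h4 : 2 * (2 ^ lam * (univ.filter fun x : Good y => ∀ j ∈ Y, Avoids y x.1 j).card) ≤
      2 * Fintype.card (Good y) := by
    calc 2 * (2 ^ lam * (univ.filter fun x : Good y => ∀ j ∈ Y, Avoids y x.1 j).card)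
        ≤ 2 * (2 ^ lam * (univ.filter fun x : I → B => ∀ j ∈ Y, Avoids y x j).card) :=
          Nat.mul_le_mul_left _ (Nat.mul_le_mul_left _ h3)
      _ = 2 ^ (lam + 1) * (univ.filter fun x : I → B => ∀ j ∈ Y, Avoids y x j).card := by
          rw [pow_succ]; ring
      _ ≤ 2 * Fintype.card (Good y) := by
          refine le_trans (le_of_eq ?_) (h1.trans h2)
          congr!
  exact Nat.le_of_mul_le_mul_left h4 (by norm_num)

end

end Pool.Agent.Lib_helper64.KSD
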