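import Pool.Agent.Lib_helper64.KSD.Greedy

/-!
# All levels, and the encoding argument
-/

namespace Pool.Agent.Lib_helper64.KSD

open Finset

/-- Iteration of `stage` over the `T` probes of certificates. -/
theorem levels {V J : Type*} [DecidableEq V] [DecidableEq J] {S T : ℕ} (hS : 0 < S)
    (A : Finset V) (Z : V → Finset J) (hZ : ∀ v ∈ A, (Z v).Nonempty)
    (cert : V → J → Fin T → Fin S) (P b : ℕ) (hP : 2 ≤ P) (t : ℕ) (ht : t ≤ T) :
    ∃ (R : Finset (Fin S)) (A' : Finset V), A' ⊆ A ∧
      R.card ≤ t * (A.card + (2 * S / P + 1) * b) ∧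
      (A \ A').card * 2 ^ b ≤ 2 * t * A.card ∧
      ∀ v ∈ A', (Z v).card ≤
        (2 * P) ^ t * ((Z v).filter fun j => ∀ s : Fin T, s.1 < t → cert v j s ∈ R).card := by
  induction t with
  | zero =>
    refine ⟨∅, A, Subset.refl _, by simp, by simp, fun v _ => ?_⟩
    rw [pow_zero, one_mul]
    refine card_le_card fun j hj => mem_filter.2 ⟨hj, fun s hs => ?_⟩
    omega
  | succ t ih =>
    obtain ⟨R, A', hA', hR, hbad, hZA⟩ := ih (by omega)
    set Z' : V → Finset J := fun v =>
      (Z v).filter fun j => ∀ s : Fin T, s.1 < t → cert v j s ∈ R with hZ'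
    have hne : ∀ v ∈ A', (Z' v).Nonempty := by
      intro v hv
      rw [← card_pos]
      have h1 := hZA v hv
      have h2 := (hZ v (hA' hv)).card_pos
      rcases Nat.eq_zero_or_pos (Z' v).card with h3 | h3
      · exfalso
        have h4 : (Z v).card ≤ (2 * P) ^ t * (Z' v).card := h1
        rw [h3, mul_zero] at h4
        omega
      · exact h3
    obtain ⟨R', A'', hA'', hR', hbad', hZA'⟩ :=
      stage hS A' Z' hne (fun v j => cert v j ⟨t, by omega⟩) P b hP
    refine ⟨R ∪ R', A'', hA''.trans hA', ?_, ?_, ?_⟩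
    · have h1 := card_union_le R R'
      have h2 : A'.card ≤ A.card := card_le_card hA'
      have h3 : R'.card ≤ A.card + (2 * S / P + 1) * b := hR'.trans (by omega)
      calc (R ∪ R').card ≤ R.card + R'.card := h1
        _ ≤ t * (A.card + (2 * S / P + 1) * b) + (A.card + (2 * S / P + 1) * b) :=
            add_le_add hR h3
        _ = _ := by ring
    · have h1 : A \ A'' ⊆ (A \ A') ∪ (A' \ A'') := by
        intro v hv
        rw [mem_sdiff] at hv
        by_cases h : v ∈ A'
        · exact mem_union_right _ (mem_sdiff.2 ⟨h, hv.2⟩)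
        · exact mem_union_left _ (mem_sdiff.2 ⟨hv.1, h⟩)
      have h2 : (A \ A'').card ≤ (A \ A').card + (A' \ A'').card :=
        (card_le_card h1).trans (card_union_le _ _)
      have h3 : A'.card ≤ A.card := card_le_card hA'
      calc (A \ A'').card * 2 ^ b ≤ ((A \ A').card + (A' \ A'').card) * 2 ^ b :=
            Nat.mul_le_mul_right _ h2
        _ = (A \ A').card * 2 ^ b + (A' \ A'').card * 2 ^ b := by ring
        _ ≤ 2 * t * A.card + 2 * A'.card := add_le_add hbad hbad'
        _ ≤ 2 * t * A.card + 2 * A.card := by omega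
        _ = _ := by ring
    · intro v hv
      have h1 := hZA v (hA'' hv)
      have h2 := hZA' v hv
      have h3 : ((Z' v).filter fun j => cert v j ⟨t, by omega⟩ ∈ R') ⊆
          (Z v).filter fun j => ∀ s : Fin T, s.1 < t + 1 → cert v j s ∈ R ∪ R' := by
        intro j hj
        rw [mem_filter, hZ', mem_filter] at hj
        refine mem_filter.2 ⟨hj.1.1, fun s hs => ?_⟩
        rcases Nat.lt_succ_iff_lt_or_eq.1 hs with h | h
        · exact mem_union_left _ (hj.1.2 s h)
        · have : s = ⟨t, by omega⟩ := Fin.ext h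
          rw [this]
          exact mem_union_right _ hj.2
      calc (Z v).card ≤ (2 * P) ^ t * (Z' v).card := h1
        _ ≤ (2 * P) ^ t * (2 * P * ((Z' v).filter fun j => cert v j ⟨t, by omega⟩ ∈ R').card) :=
            Nat.mul_le_mul_left _ h2
        _ ≤ (2 * P) ^ t * (2 * P * ((Z v).filter fun j =>
              ∀ s : Fin T, s.1 < t + 1 → cert v j s ∈ R ∪ R').card) :=
            Nat.mul_le_mul_left _ (Nat.mul_le_mul_left _ (card_le_card h3))
        _ = _ := by ring

/-- A finite set of at most `K` elements (`K > 0` or the type inhabited) is in the range of a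
function on `Fin K`. -/
theorem exists_cover {C : Type*} [DecidableEq C] (R : Finset C) (K : ℕ) (hK : R.card ≤ K)
    [Nonempty C] : ∃ e : Fin K → C, ∀ c ∈ R, ∃ i, e i = c := by
  classical
  obtain ⟨c₀⟩ := (inferInstance : Nonempty C)
  refine ⟨fun i => if h : i.1 < R.card then (R.equivFin.symm ⟨i.1, h⟩ : C) else c₀, fun c hc => ?_⟩
  refine ⟨⟨(R.equivFin ⟨c, hc⟩).1, lt_of_lt_of_le (R.equivFin ⟨c, hc⟩).2 hK⟩, ?_⟩
  simp

/-- The encoding argument. `X` is the finite set of possible values of one unknown set, `J` the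
tests, `ok x j` says that the unknown set `x` passes the test `j`. Every memory `mem x`,
`x : Fin m → X`, gives certificates of `T` cells for all passed tests of all rows. -/
theorem encode {X J : Type*} [Fintype X] [DecidableEq X] [Fintype J] [DecidableEq J]
    {S w T m P b lam L d : ℕ} (hS : 0 < S) (hP : 2 ≤ P)
    (ok : X → J → Prop) [∀ x j, Decidable (ok x j)]
    (hX : 0 < Fintype.card X)
    (hhalf : ∀ x, Fintype.card J ≤ 2 * (univ.filter fun j => ok x j).card)
    (hd : ∀ Y : Finset J, d ≤ Y.card →
      2 ^ lam * (univ.filter fun x => ∀ j ∈ Y, ok x j).card ≤ Fintype.card X)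
    (hJ : 2 * (2 * P) ^ T * d ≤ Fintype.card J) (hd0 : 0 < d)
    (hb : 8 * T ≤ 2 ^ b) (hL : S * 2 ^ w ≤ 2 ^ L)
    (mem : (Fin m → X) → Fin S → Fin (2 ^ w))
    (acc : Fin m → J → (Fin S → Fin (2 ^ w)) → Prop)
    (hacc : ∀ x v j, acc v j (mem x) ↔ ok (x v) j)
    (hcert : ∀ v j M, acc v j M → ∃ c : Fin T → Fin S,
      ∀ M' : Fin S → Fin (2 ^ w), (∀ t, M' (c t) = M (c t)) → acc v j M') :
    lam * (m - m / 4) ≤ L * (T * (m + (2 * S / P + 1) * b)) := by
  classical
  have hne : Nonempty (Fin S) := ⟨⟨0, hS⟩⟩
  set K := T * (m + (2 * S / P + 1) * b) with hK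
  -- certificates
  have hc : ∀ (x : Fin m → X) (v : Fin m) (j : J), ∃ c : Fin T → Fin S, ok (x v) j →
      ∀ M' : Fin S → Fin (2 ^ w), (∀ t, M' (c t) = mem x (c t)) → acc v j M' := by
    intro x v j
    by_cases h : ok (x v) j
    · obtain ⟨c, hc⟩ := hcert v j (mem x) ((hacc x v j).2 h)
      exact ⟨c, fun _ => hc⟩
    · exact ⟨fun _ => ⟨0, hS⟩, fun h' => absurd h' h⟩
  choose cert hcert' using hc
  -- the chosen cells
  have hsel : ∀ x : Fin m → X, ∃ (e : Fin K → Fin S) (A' : Finset (Fin m)),
      m - m / 4 ≤ A'.card ∧ ∀ v ∈ A', d ≤ (univ.filter fun j =>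
        ok (x v) j ∧ ∀ s, ∃ i, e i = cert x v j s).card := by
    intro x
    have hJpos : 0 < Fintype.card J := by
      have : 0 < 2 * (2 * P) ^ T * d := by positivity
      omega
    obtain ⟨R, A', hA', hR, hbad, hZA⟩ := levels hS (univ : Finset (Fin m))
      (fun v => univ.filter fun j => ok (x v) j) (fun v _ => by
        rw [← card_pos]
        have := hhalf (x v)
        omega) (cert x) P b hP T le_rfl
    rw [card_univ, Fintype.card_fin] at hR hbad
    obtain ⟨e, he⟩ := exists_cover R K hR
    refine ⟨e, A', ?_, fun v hv => ?_⟩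
    · have h1 : (univ \ A' : Finset (Fin m)).card = m - A'.card := by
        rw [card_sdiff_of_subset (subset_univ _), card_univ, Fintype.card_fin]
      rw [h1] at hbad
      have h2 : A'.card ≤ m := by
        have := card_le_card (subset_univ A')
        rwa [card_univ, Fintype.card_fin] at this
      -- (m - |A'|) * 8 T ≤ 2 T m
      rcases Nat.eq_zero_or_pos T with hT | hT
      · have : (m - A'.card) * 2 ^ b ≤ 0 := by rw [hT] at hbad; simpa using hbad
        have h3 : m - A'.card = 0 := by
          rcases Nat.eq_zero_or_pos (m - A'.card) with h | h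
          · exact h
          · exfalso
            have : 0 < (m - A'.card) * 2 ^ b := by positivity
            omega
        omega
      · have h3 : (m - A'.card) * (8 * T) ≤ 2 * T * m :=
          (Nat.mul_le_mul_left _ hb).trans hbad
        have h4 : (m - A'.card) * 4 ≤ m := by
          have h5 : 2 * T * ((m - A'.card) * 4) ≤ 2 * T * m := by
            calc 2 * T * ((m - A'.card) * 4) = (m - A'.card) * (8 * T) := by ring
              _ ≤ _ := h3
          exact Nat.le_of_mul_le_mul_left h5 (by omega)
        have h6 : m - A'.card ≤ m / 4 := by omega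
        omega
    · have h1 := hZA v hv
      have h2 := hhalf (x v)
      have h3 : ((univ.filter fun j => ok (x v) j).filter fun j =>
          ∀ s : Fin T, s.1 < T → cert x v j s ∈ R) ⊆
          univ.filter fun j => ok (x v) j ∧ ∀ s, ∃ i, e i = cert x v j s := by
        intro j hj
        rw [mem_filter, mem_filter] at hj
        exact mem_filter.2 ⟨mem_univ _, hj.1.2, fun s => he _ (hj.2 s s.2)⟩
      have h4 := card_le_card h3
      have hP0 : 0 < 2 * (2 * P) ^ T := by positivity
      have h5 : 2 * (2 * P) ^ T * d ≤ 2 * (2 * P) ^ T *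
          (univ.filter fun j => ok (x v) j ∧ ∀ s, ∃ i, e i = cert x v j s).card := by
        calc 2 * (2 * P) ^ T * d ≤ Fintype.card J := hJ
          _ ≤ 2 * (univ.filter fun j => ok (x v) j).card := h2
          _ ≤ 2 * ((2 * P) ^ T * ((univ.filter fun j => ok (x v) j).filter fun j =>
                ∀ s : Fin T, s.1 < T → cert x v j s ∈ R).card) := Nat.mul_le_mul_left _ h1
          _ ≤ 2 * ((2 * P) ^ T *
                (univ.filter fun j => ok (x v) j ∧ ∀ s, ∃ i, e i = cert x v j s).card) :=
              Nat.mul_le_mul_left _ (Nat.mul_le_mul_left _ h4)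
          _ = _ := by ring
      exact Nat.le_of_mul_le_mul_left h5 hP0
  choose sel act hact hsel' using hsel
  -- the code
  set code : (Fin m → X) → (Fin K → Fin S) × (Fin K → Fin (2 ^ w)) := fun x =>
    (sel x, fun i => mem x (sel x i)) with hcode
  -- the fibres are small
  have hfib : ∀ y, 2 ^ (lam * (m - m / 4)) * (univ.filter fun x => code x = y).card ≤
      Fintype.card X ^ m := by
    intro y
    rcases (univ.filter fun x => code x = y).eq_empty_or_nonempty with h | ⟨x₀, hx₀⟩
    · rw [h, card_empty, mul_zero]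
      exact Nat.zero_le _
    rw [mem_filter] at hx₀
    -- the resolved tests of `x₀`
    set Y : Fin m → Finset J := fun v => if v ∈ act x₀ then
      univ.filter fun j => ok (x₀ v) j ∧ ∀ s, ∃ i, sel x₀ i = cert x₀ v j s else ∅ with hY
    have hsub : (univ.filter fun x => code x = y) ⊆
        Fintype.piFinset fun v => univ.filter fun z => ∀ j ∈ Y v, ok z j := by
      intro x hx
      rw [mem_filter] at hx
      rw [Fintype.mem_piFinset]
      intro v
      refine mem_filter.2 ⟨mem_univ _, fun j hj => ?_⟩
      by_cases hv : v ∈ act x₀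
      · rw [hY] at hj
        simp only [if_pos hv, mem_filter, mem_univ, true_and] at hj
        have heq : code x = code x₀ := hx.2.trans hx₀.2.symm
        have h1 : sel x = sel x₀ := (Prod.ext_iff.1 heq).1
        have h2 : ∀ i, mem x (sel x i) = mem x₀ (sel x₀ i) := fun i =>
          congrFun (Prod.ext_iff.1 heq).2 i
        rw [← hacc x v j]
        refine hcert' x₀ v j hj.1 (mem x) fun s => ?_
        obtain ⟨i, hi⟩ := hj.2 s
        rw [← hi]
        have := h2 i
        rwa [h1] at this
      · rw [hY] at hj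
        simp only [if_neg hv] at hj
        exact absurd hj (notMem_empty _)
    have hprod : (Fintype.piFinset fun v => univ.filter fun z => ∀ j ∈ Y v, ok z j).card =
        ∏ v, (univ.filter fun z => ∀ j ∈ Y v, ok z j).card := Fintype.card_piFinset _
    have hrow : ∀ v, 2 ^ (if v ∈ act x₀ then lam else 0) *
        (univ.filter fun z => ∀ j ∈ Y v, ok z j).card ≤ Fintype.card X := by
      intro v
      by_cases hv : v ∈ act x₀
      · rw [if_pos hv]
        refine hd (Y v) ?_
        rw [hY]
        simp only [if_pos hv]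
        exact hsel' x₀ v hv
      · rw [if_neg hv, pow_zero, one_mul]
        exact card_le_univ _
    have hpw : ∏ v, 2 ^ (if v ∈ act x₀ then lam else 0) = 2 ^ (lam * (act x₀).card) := by
      rw [prod_pow_eq_pow_sum, sum_ite_mem, univ_inter, sum_const, smul_eq_mul, mul_comm]
    calc 2 ^ (lam * (m - m / 4)) * (univ.filter fun x => code x = y).card
        ≤ 2 ^ (lam * (act x₀).card) * (univ.filter fun x => code x = y).card :=
          Nat.mul_le_mul_right _ (Nat.pow_le_pow_right (by norm_num)
            (Nat.mul_le_mul_left _ (hact x₀)))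
      _ ≤ 2 ^ (lam * (act x₀).card) *
          ∏ v, (univ.filter fun z => ∀ j ∈ Y v, ok z j).card := by
          rw [← hprod]
          exact Nat.mul_le_mul_left _ (card_le_card hsub)
      _ = ∏ v, (2 ^ (if v ∈ act x₀ then lam else 0) *
          (univ.filter fun z => ∀ j ∈ Y v, ok z j).card) := by
          rw [← hpw, prod_mul_distrib]
      _ ≤ ∏ _v : Fin m, Fintype.card X := prod_le_prod' fun v _ => hrow v
      _ = Fintype.card X ^ m := by rw [prod_const, card_univ, Fintype.card_fin]
  -- count
  have hcount : 2 ^ (lam * (m - m / 4)) * Fintype.card X ^ m ≤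
      2 ^ (L * K) * Fintype.card X ^ m := by
    have h1 : Fintype.card (Fin m → X) = ∑ y, (univ.filter fun x => code x = y).card := by
      rw [← card_univ]
      exact card_eq_sum_card_fiberwise fun x _ => mem_univ _
    have h2 : Fintype.card (Fin m → X) = Fintype.card X ^ m := by
      rw [Fintype.card_fun, Fintype.card_fin]
    have h3 : Fintype.card ((Fin K → Fin S) × (Fin K → Fin (2 ^ w))) ≤ 2 ^ (L * K) := by
      rw [Fintype.card_prod, Fintype.card_fun, Fintype.card_fun, Fintype.card_fin,
        Fintype.card_fin, Fintype.card_fin, ← mul_pow]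
      exact (Nat.pow_le_pow_left hL K).trans (pow_mul 2 L K).symm.le
    calc 2 ^ (lam * (m - m / 4)) * Fintype.card X ^ m
        = ∑ y, 2 ^ (lam * (m - m / 4)) * (univ.filter fun x => code x = y).card := by
          rw [← mul_sum, ← h1, h2]
      _ ≤ ∑ _y : (Fin K → Fin S) × (Fin K → Fin (2 ^ w)), Fintype.card X ^ m :=
          sum_le_sum fun y _ => hfib y
      _ = Fintype.card ((Fin K → Fin S) × (Fin K → Fin (2 ^ w))) * Fintype.card X ^ m := by
          rw [sum_const, card_univ, smul_eq_mul]
      _ ≤ _ := Nat.mul_le_mul_right _ h3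
  have hXm : 0 < Fintype.card X ^ m := by positivity
  have h4 := Nat.le_of_mul_le_mul_right hcount hXm
  exact (Nat.pow_le_pow_iff_right (by norm_num)).1 h4

end Pool.Agent.Lib_helper64.KSD
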