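import Pool.Agent.Lib_helper64.KSD.Model
import Pool.Agent.Lib_helper64.KSD.Levels
import Pool.Agent.Lib_helper64.KSD.Avoid

/-!
# The hard families
-/

namespace Pool.Agent.Lib_helper64.KSD

open Finset Polynomial

/-- Reed-Solomon words. -/
theorem exists_rs (q : ℕ) [Fact q.Prime] (D m : ℕ) (hm : m ≤ q ^ D) :
    ∃ c : Fin m → ZMod q → ZMod q, ∀ u u', u ≠ u' →
      (univ.filter fun e => c u e = c u' e).card ≤ D := by
  classical
  have h1 : Fintype.card (Fin m) ≤ Fintype.card (Fin D → ZMod q) := by
    rw [Fintype.card_fin, Fintype.card_fun, Fintype.card_fin, ZMod.card]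
    exact hm
  obtain ⟨emb⟩ := Function.Embedding.nonempty_of_card_le h1
  set p : Fin m → (ZMod q)[X] := fun u => ∑ l : Fin D, C (emb u l) * X ^ (l : ℕ) with hp
  have hcoeff : ∀ u (l : Fin D), (p u).coeff l = emb u l := by
    intro u l
    rw [hp]
    simp only [finset_sum_coeff, coeff_C_mul, coeff_X_pow]
    rw [sum_eq_single l]
    · simp
    · intro l' _ hl'
      rw [if_neg, mul_zero]
      exact fun h => hl' (Fin.ext h.symm)
    · intro h
      exact absurd (mem_univ _) h
  have hdeg : ∀ u, (p u).degree < D := by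
    intro u
    rw [hp]
    refine (degree_sum_fin_lt _)
  refine ⟨fun u e => (p u).eval e, fun u u' huu => ?_⟩
  have hne : p u - p u' ≠ 0 := by
    intro h
    apply huu
    apply emb.injective
    funext l
    rw [← hcoeff u l, ← hcoeff u' l, sub_eq_zero.1 h]
  have hsub : (univ.filter fun e => (p u).eval e = (p u').eval e) ⊆
      (p u - p u').roots.toFinset := by
    intro e he
    rw [Multiset.mem_toFinset, mem_roots hne, IsRoot.def, eval_sub, sub_eq_zero]
    exact (mem_filter.1 he).2
  refine (card_le_card hsub).trans ((Multiset.toFinset_card_le _).trans ?_)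
  refine (card_roots' _).trans ?_
  have h2 : (p u - p u').degree < D := (degree_sub_le _ _).trans_lt (max_lt (hdeg u) (hdeg u'))
  exact (natDegree_lt_iff_degree_lt hne).2 h2 |>.le

section fam

variable {Ix U : Type*} [Fintype Ix] [DecidableEq Ix] [Fintype U] {N : ℕ}

/-- A family of subsets of `U` transported to `Fin N`; the sets with other numbers are empty. -/
def fam (G : Ix → Finset U) (idx : Ix ↪ Fin N) (el : U ↪ Fin N) : Fin N → Finset (Fin N) :=
  fun n => (univ.filter fun s => idx s = n).biUnion fun s => (G s).map el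

omit [DecidableEq Ix] [Fintype U] in
theorem fam_idx (G : Ix → Finset U) (idx : Ix ↪ Fin N) (el : U ↪ Fin N) (s : Ix) :
    fam G idx el (idx s) = (G s).map el := by
  classical
  have : (univ.filter fun s' => idx s' = idx s) = {s} := by
    ext s'
    simp
  rw [fam, this, singleton_biUnion]

omit [DecidableEq Ix] in
theorem sum_fam (G : Ix → Finset U) (idx : Ix ↪ Fin N) (el : U ↪ Fin N) :
    ∑ n, (fam G idx el n).card ≤ Fintype.card Ix * Fintype.card U := by
  calc ∑ n, (fam G idx el n).card
      ≤ ∑ n, ∑ s ∈ univ.filter (fun s => idx s = n), (G s).card := by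
        refine sum_le_sum fun n _ => ?_
        refine card_biUnion_le.trans (le_of_eq ?_)
        exact sum_congr rfl fun s _ => card_map _
    _ = ∑ s, (G s).card := sum_fiberwise _ _ _
    _ ≤ ∑ _s : Ix, Fintype.card U := sum_le_sum fun s _ => card_le_univ _
    _ = _ := by rw [sum_const, card_univ, smul_eq_mul]

end fam

/-- The lower bound with free parameters. -/
theorem scheme_bound {κ N S w T m P b lam L d D q : ℕ} [Fact q.Prime] (hκ : 0 < κ) (hS : 0 < S)
    (hP : 2 ≤ P) (hm : 0 < m) (hmD : m ≤ q ^ D) (hq : d * D ≤ q)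
    (hN : 4 * (κ + 1) * q ^ (2 * κ) * m ≤ N)
    (hd : 8 * (lam + 1) ≤ d)
    (hJ : 2 * (2 * P) ^ T * d ≤ m ^ κ)
    (hb : 8 * T ≤ 2 ^ b) (hL : S * 2 ^ w ≤ 2 ^ L) (D' : Scheme (κ + 1) N S w T) :
    lam * (m - m / 4) ≤ L * (T * (m + (2 * S / P + 1) * b)) := by
  classical
  obtain ⟨c, hc⟩ := exists_rs q D m hmD
  have hq0 : 0 < q := (Fact.out : q.Prime).pos
  have hq2 : 2 ≤ q := (Fact.out : q.Prime).two_le
  set y : (Fin κ → Fin m) → (Fin κ → ZMod q) → (Fin κ → ZMod q) × Fin 4 := fun j i =>
    (fun l => c (j l) (i l), 0) with hy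
  have hd0 : 0 < d := by omega
  have cI : Fintype.card (Fin κ → ZMod q) = q ^ κ := by
    rw [Fintype.card_fun, Fintype.card_fin, ZMod.card]
  have cB : Fintype.card ((Fin κ → ZMod q) × Fin 4) = 4 * q ^ κ := by
    rw [Fintype.card_prod, cI, Fintype.card_fin, mul_comm]
  have cJ : Fintype.card (Fin κ → Fin m) = m ^ κ := by
    rw [Fintype.card_fun, Fintype.card_fin, Fintype.card_fin]
  have hI0 : 0 < Fintype.card (Fin κ → ZMod q) := by rw [cI]; positivity
  have hB : Fintype.card ((Fin κ → ZMod q) × Fin 4) = 4 * Fintype.card (Fin κ → ZMod q) := by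
    rw [cB, cI]
  have hJ0 : 0 < Fintype.card (Fin κ → Fin m) := by rw [cJ]; positivity
  -- agreements
  have hagree : ∀ j j', j ≠ j' →
      d * (univ.filter fun i => y j i = y j' i).card ≤ Fintype.card (Fin κ → ZMod q) := by
    intro j j' hjj
    obtain ⟨l, hl⟩ : ∃ l, j l ≠ j' l := by
      by_contra h
      push Not at h
      exact hjj (funext h)
    set E := univ.filter fun e => c (j l) e = c (j' l) e with hE
    have hsub : (univ.filter fun i => y j i = y j' i) ⊆
        E.biUnion fun e => univ.filter fun i : Fin κ → ZMod q => i l = e := by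
      intro i hi
      rw [mem_filter] at hi
      refine mem_biUnion.2 ⟨i l, ?_, mem_filter.2 ⟨mem_univ _, rfl⟩⟩
      refine mem_filter.2 ⟨mem_univ _, ?_⟩
      have := congrFun (Prod.ext_iff.1 hi.2).1 l
      exact this
    have h1 := (card_le_card hsub).trans card_biUnion_le
    have h2 : q * ∑ e ∈ E, (univ.filter fun i : Fin κ → ZMod q => i l = e).card =
        E.card * q ^ κ := by
      rw [mul_sum]
      have : ∀ e ∈ E, q * (univ.filter fun i : Fin κ → ZMod q => i l = e).card = q ^ κ := by
        intro e _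
        have := card_fix (I := Fin κ) (B := ZMod q) l e
        rwa [ZMod.card, Fintype.card_fin] at this
      rw [sum_congr rfl this, sum_const, smul_eq_mul]
    have h3 : E.card ≤ D := hc _ _ hl
    have h4 : q * (d * (univ.filter fun i => y j i = y j' i).card) ≤ q * q ^ κ := by
      calc q * (d * (univ.filter fun i => y j i = y j' i).card)
          = d * (q * (univ.filter fun i => y j i = y j' i).card) := by ring
        _ ≤ d * (q * ∑ e ∈ E, (univ.filter fun i : Fin κ → ZMod q => i l = e).card) :=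
            Nat.mul_le_mul_left _ (Nat.mul_le_mul_left _ h1)
        _ = d * (E.card * q ^ κ) := by rw [h2]
        _ ≤ d * (D * q ^ κ) := Nat.mul_le_mul_left _ (Nat.mul_le_mul_right _ h3)
        _ = d * D * q ^ κ := by ring
        _ ≤ q * q ^ κ := Nat.mul_le_mul_right _ hq
    rw [cI]
    exact Nat.le_of_mul_le_mul_left h4 hq0
  -- the embeddings
  have cU : Fintype.card ((Fin κ → ZMod q) × ((Fin κ → ZMod q) × Fin 4)) = 4 * q ^ (2 * κ) := by
    rw [Fintype.card_prod, cB, cI, two_mul, pow_add]
    ring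
  have cIx : Fintype.card (Fin m ⊕ (Fin κ × Fin m)) = (κ + 1) * m := by
    rw [Fintype.card_sum, Fintype.card_prod, Fintype.card_fin, Fintype.card_fin]
    ring
  have hUN : Fintype.card ((Fin κ → ZMod q) × ((Fin κ → ZMod q) × Fin 4)) ≤
      Fintype.card (Fin N) := by
    rw [cU, Fintype.card_fin]
    refine le_trans ?_ hN
    calc 4 * q ^ (2 * κ) = 4 * 1 * q ^ (2 * κ) * 1 := by ring
      _ ≤ 4 * (κ + 1) * q ^ (2 * κ) * m :=
          Nat.mul_le_mul (Nat.mul_le_mul_right _ (Nat.mul_le_mul_left _ (by omega))) hm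
  have hIxN : Fintype.card (Fin m ⊕ (Fin κ × Fin m)) ≤ Fintype.card (Fin N) := by
    rw [cIx, Fintype.card_fin]
    refine le_trans ?_ hN
    have h1 : 1 ≤ 4 * q ^ (2 * κ) := Nat.one_le_iff_ne_zero.2 (by positivity)
    calc (κ + 1) * m = 1 * ((κ + 1) * m) := by ring
      _ ≤ 4 * q ^ (2 * κ) * ((κ + 1) * m) := Nat.mul_le_mul_right _ h1
      _ = _ := by ring
  obtain ⟨el⟩ := Function.Embedding.nonempty_of_card_le hUN
  obtain ⟨idx⟩ := Function.Embedding.nonempty_of_card_le hIxN
  -- the families
  set G : (Fin m → (Fin κ → ZMod q) → (Fin κ → ZMod q) × Fin 4) → Fin m ⊕ (Fin κ × Fin m) →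
      Finset ((Fin κ → ZMod q) × ((Fin κ → ZMod q) × Fin 4)) := fun x s =>
    match s with
    | Sum.inl v => univ.filter fun p => p.2 = x v p.1
    | Sum.inr lu => univ.filter fun p => p.2.1 lu.1 = c lu.2 (p.1 lu.1) ∧ p.2.2 = 0 with hG
  set qu : Fin m → (Fin κ → Fin m) → Fin (κ + 1) → Fin N := fun v j =>
    Fin.cons (idx (Sum.inl v)) fun l => idx (Sum.inr (l, j l)) with hqu
  have hquinj : ∀ v j, Function.Injective (qu v j) := by
    intro v j
    rw [hqu]
    refine Fin.cons_injective_iff.2 ⟨?_, ?_⟩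
    · rintro ⟨l, hl⟩
      have := idx.injective hl
      exact absurd this (by simp)
    · intro l l' hll
      have := idx.injective hll
      have h2 := Sum.inr_injective this
      exact (Prod.ext_iff.1 h2).1
  have hsize : ∀ x, ∑ n, (fam (G x) idx el n).card ≤ N := by
    intro x
    refine (sum_fam _ _ _).trans ?_
    rw [cIx, cU]
    refine le_trans (le_of_eq ?_) hN
    ring
  have hcorr : ∀ (x : Fin m → (Fin κ → ZMod q) → (Fin κ → ZMod q) × Fin 4) v j,
      (∀ e, ¬ ∀ i, e ∈ fam (G x) idx el (qu v j i)) ↔ Avoids y (x v) j := by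
    intro x v j
    have hmem : ∀ p, (∀ i, el p ∈ fam (G x) idx el (qu v j i)) ↔
        p.2 = x v p.1 ∧ ∀ l, (p.2.1 l = c (j l) (p.1 l) ∧ p.2.2 = 0) := by
      intro p
      constructor
      · intro h
        have h0 := h 0
        have h0' : qu v j 0 = idx (Sum.inl v) := rfl
        rw [h0', fam_idx, mem_map' el] at h0
        refine ⟨(mem_filter.1 h0).2, fun l => ?_⟩
        have hl := h l.succ
        have hl' : qu v j l.succ = idx (Sum.inr (l, j l)) := by
          rw [hqu]
          simp
        rw [hl', fam_idx, mem_map' el] at hl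
        exact (mem_filter.1 hl).2
      · rintro ⟨h1, h2⟩ i
        refine Fin.cases ?_ (fun l => ?_) i
        · have h0' : qu v j 0 = idx (Sum.inl v) := rfl
          rw [h0', fam_idx, mem_map' el]
          exact mem_filter.2 ⟨mem_univ _, h1⟩
        · have hl' : qu v j l.succ = idx (Sum.inr (l, j l)) := by
            rw [hqu]
            simp
          rw [hl', fam_idx, mem_map' el]
          exact mem_filter.2 ⟨mem_univ _, h2 l⟩
    constructor
    · intro h i hi
      refine h (el (i, x v i)) ((hmem (i, x v i)).2 ⟨rfl, fun l => ?_⟩)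
      rw [hi]
      exact ⟨rfl, rfl⟩
    · intro h e he
      -- `e` is the image of an element
      have h0 := he 0
      have h0' : qu v j 0 = idx (Sum.inl v) := rfl
      rw [h0', fam_idx, mem_map] at h0
      obtain ⟨p, -, rfl⟩ := h0
      obtain ⟨h1, h2⟩ := (hmem p).1 he
      apply h p.1
      rw [← h1]
      refine Prod.ext (funext fun l => (h2 l).1) ?_
      exact (h2 ⟨0, hκ⟩).2
  have hX : 0 < Fintype.card (Good y) := by
    have h1 := card_good y hI0 hB hJ0
    have h2 : 0 < Fintype.card ((Fin κ → ZMod q) × Fin 4) ^ Fintype.card (Fin κ → ZMod q) := by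
      rw [cB]
      positivity
    omega
  exact encode (X := Good y) (J := Fin κ → Fin m) (d := d) hS hP (fun x j => Avoids y x.1 j)
    hX (fun x => x.2)
    (fun Y hY => good_count y d lam hd0 hI0 hB hJ0 hagree hd Y hY)
    (by rw [cJ]; exact hJ) hd0 hb hL
    (fun x => D'.mem (fam (G fun v => (x v).1) idx el))
    (fun v j M => (D'.alg (qu v j)).Accepts M)
    (fun x v j => (D'.correct _ (hsize _) (qu v j) (hquinj v j)).trans
      (hcorr (fun v => (x v).1) v j))
    (fun v j M hM => exists_cert hS M _ T (D'.within _) hM)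

end Pool.Agent.Lib_helper64.KSD
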