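import Pool.Agent.Lib_helper64.KSD.Family

/-!
# The space lower bound
-/

namespace Pool.Agent.Lib_helper64.KSD

open Finset

/-- Counting bound: the memory contains at least `N - κ` bits. -/
theorem counting_bound {κ N S w T : ℕ} (hN : κ < N) (D' : Scheme (κ + 1) N S w T) :
    N - κ ≤ w * S := by
  classical
  set m := N - κ with hm
  have hNpos : 0 < N := by omega
  have cIx : Fintype.card (Fin m ⊕ Fin κ) ≤ Fintype.card (Fin N) := by
    rw [Fintype.card_sum, Fintype.card_fin, Fintype.card_fin, Fintype.card_fin]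
    omega
  have cU : Fintype.card Unit ≤ Fintype.card (Fin N) := by
    rw [Fintype.card_unit, Fintype.card_fin]
    omega
  obtain ⟨idx⟩ := Function.Embedding.nonempty_of_card_le cIx
  obtain ⟨el⟩ := Function.Embedding.nonempty_of_card_le cU
  set G : (Fin m → Bool) → Fin m ⊕ Fin κ → Finset Unit := fun x s =>
    match s with
    | Sum.inl v => if x v then univ else ∅
    | Sum.inr _ => univ with hG
  set qu : Fin m → Fin (κ + 1) → Fin N := fun v =>
    Fin.cons (idx (Sum.inl v)) fun l => idx (Sum.inr l) with hqu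
  have hquinj : ∀ v, Function.Injective (qu v) := by
    intro v
    rw [hqu]
    refine Fin.cons_injective_iff.2 ⟨?_, ?_⟩
    · rintro ⟨l, hl⟩
      have := idx.injective hl
      exact absurd this (by simp)
    · intro l l' hll
      exact Sum.inr_injective (idx.injective hll)
  have hsize : ∀ x, ∑ n, (fam (G x) idx el n).card ≤ N := by
    intro x
    refine (sum_fam _ _ _).trans ?_
    rw [Fintype.card_sum, Fintype.card_fin, Fintype.card_fin, Fintype.card_unit]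
    omega
  have hcorr : ∀ (x : Fin m → Bool) v,
      (∀ e, ¬ ∀ i, e ∈ fam (G x) idx el (qu v i)) ↔ x v = false := by
    intro x v
    have h0' : qu v 0 = idx (Sum.inl v) := rfl
    constructor
    · intro h
      by_contra hx
      have hx' : x v = true := by
        cases hxv : x v
        · exact absurd hxv hx
        · rfl
      refine h (el ()) fun i => ?_
      refine Fin.cases ?_ (fun l => ?_) i
      · rw [h0', fam_idx, mem_map' el]
        simp [hG, hx']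
      · have hl' : qu v l.succ = idx (Sum.inr l) := by
          rw [hqu]
          simp
        rw [hl', fam_idx, mem_map' el]
        simp [hG]
    · intro h e he
      have h0 := he 0
      rw [h0', fam_idx] at h0
      simp [hG, h] at h0
  have hinj : Function.Injective fun x : Fin m → Bool => D'.mem (fam (G x) idx el) := by
    intro x x' hxx
    funext v
    have h1 := (D'.correct _ (hsize x) (qu v) (hquinj v)).trans (hcorr x v)
    have h2 := (D'.correct _ (hsize x') (qu v) (hquinj v)).trans (hcorr x' v)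
    have h3 : D'.mem (fam (G x) idx el) = D'.mem (fam (G x') idx el) := hxx
    rw [h3] at h1
    have h4 : x v = false ↔ x' v = false := h1.symm.trans h2
    cases hxv : x v <;> cases hxv' : x' v <;> simp_all
  have h1 := Fintype.card_le_of_injective _ hinj
  rw [Fintype.card_fun, Fintype.card_fun, Fintype.card_bool, Fintype.card_fin, Fintype.card_fin,
    Fintype.card_fin, ← pow_mul] at h1
  exact (Nat.pow_le_pow_iff_right (by norm_num)).1 h1

theorem pow_mono_aux {A B c C : ℕ} (hA : 1 ≤ B) (hAB : A ≤ B) (hc : c ≤ C) (T : ℕ) :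
    A ^ (c * T) ≤ B ^ (C * T) :=
  (Nat.pow_le_pow_left hAB _).trans (Nat.pow_le_pow_right hA (Nat.mul_le_mul_right _ hc))

theorem ex1 (κ : ℕ) : κ + 1 ≤ (6 * κ + 10) * (κ + 1) := Nat.le_mul_of_pos_left _ (by omega)

theorem ex2 (κ : ℕ) : κ + 2 ≤ (6 * κ + 10) * (κ + 1) := by nlinarith

theorem ex3 (κ : ℕ) : (6 * κ + 2) * κ + 6 ≤ (6 * κ + 10) * (κ + 1) := by nlinarith

theorem ex4 (κ : ℕ) : (6 * κ + 2) * (κ + 1) + 5 ≤ (6 * κ + 10) * (κ + 1) := by nlinarith

theorem ex5 (κ T : ℕ) (hT : 0 < T) : T + κ ≤ (κ + 1) * T := by nlinarith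

theorem ex6 (κ l : ℕ) (hl : 1 ≤ l) (hκ : 0 < κ) : 128 ≤ 64 * (κ + 1) * l := by
  calc 128 = 64 * (1 + 1) * 1 := by norm_num
    _ ≤ 64 * (κ + 1) * l := Nat.mul_le_mul (Nat.mul_le_mul_left _ (by omega)) hl

theorem ex7 (κ l : ℕ) : l ≤ 64 * (κ + 1) * l := Nat.le_mul_of_pos_left _ (by omega)

theorem ex8 (x : ℕ) (hx : 128 ≤ x) (l : ℕ) (hl : l ≤ x) : 2 * l ≤ x ^ 2 := by nlinarith

theorem ex9 (Q m N : ℕ) (hm : 0 < m) (h : N < Q * m + Q) : N ≤ 2 * Q * m := by nlinarith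

theorem ex10 (κ l : ℕ) (hl : 1 ≤ l) : 4 * (κ + 1) ≤ 64 * (κ + 1) * l := by
  calc 4 * (κ + 1) = 4 * (κ + 1) * 1 := by ring
    _ ≤ 64 * (κ + 1) * l := Nat.mul_le_mul (Nat.mul_le_mul_right _ (by norm_num)) hl

theorem ex11 (κ l : ℕ) (hl : 1 ≤ l) : 2 * κ ≤ 64 * (κ + 1) * l := by
  calc 2 * κ ≤ 64 * (κ + 1) * 1 := by omega
    _ ≤ 64 * (κ + 1) * l := Nat.mul_le_mul_left _ hl

/-- The final bound, for `k = κ + 1`. -/
theorem final_bound {κ : ℕ} (hκ : 0 < κ) {N S w T : ℕ} (hN : 0 < N) (hS : 0 < S) (hT : 0 < T)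
    (D' : Scheme (κ + 1) N S w T) :
    N ^ (T + κ) ≤ (64 * (κ + 1) * (w + Nat.log 2 N + 1)) ^ ((6 * κ + 10) * (κ + 1) * T) *
      S ^ T := by
  set a := Nat.log 2 N + 1 with ha
  set l := w + Nat.log 2 N + 1 with hl
  set Λ := 64 * (κ + 1) * l with hΛ
  have hal : a ≤ l := by omega
  have hl1 : 1 ≤ l := by omega
  have hΛ128 : 128 ≤ Λ := ex6 κ l hl1 hκ
  have hΛ1 : 1 ≤ Λ := by omega
  have hlΛ : l ≤ Λ := ex7 κ l
  have hNa : N < 2 ^ a := Nat.lt_pow_succ_log_self (by norm_num) N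
  -- a tool: exponents
  have hexp : ∀ c : ℕ, c ≤ (6 * κ + 10) * (κ + 1) → Λ ^ (c * T) ≤
      Λ ^ ((6 * κ + 10) * (κ + 1) * T) := fun c hc => pow_mono_aux hΛ1 le_rfl hc T
  have hST : 1 ≤ S ^ T := Nat.one_le_iff_ne_zero.2 (by positivity)
  have hTk : T + κ ≤ (κ + 1) * T := ex5 κ T hT
  -- case 1
  rcases le_or_gt (N ^ (κ + 1)) S with h1 | h1
  · calc N ^ (T + κ) ≤ N ^ ((κ + 1) * T) := Nat.pow_le_pow_right hN hTk
      _ = (N ^ (κ + 1)) ^ T := pow_mul _ _ _
      _ ≤ S ^ T := Nat.pow_le_pow_left h1 T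
      _ ≤ _ := Nat.le_mul_of_pos_left _ (by positivity)
  -- case 2a
  rcases le_or_gt N (2 * κ) with h2 | h2
  · have h3 : N ≤ Λ := h2.trans (ex11 κ l hl1)
    calc N ^ (T + κ) ≤ N ^ ((κ + 1) * T) := Nat.pow_le_pow_right hN hTk
      _ ≤ Λ ^ ((κ + 1) * T) := Nat.pow_le_pow_left h3 _
      _ ≤ Λ ^ ((6 * κ + 10) * (κ + 1) * T) := hexp _ (ex1 κ)
      _ ≤ _ := Nat.le_mul_of_pos_right _ hST
  have hcb : N ≤ 2 * l * S := by
    have h3 := counting_bound (by omega : κ < N) D'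
    have h4 : N ≤ 2 * (w * S) := by omega
    have h5 : w * S ≤ l * S := Nat.mul_le_mul_right _ (by omega)
    calc N ≤ 2 * (w * S) := h4
      _ ≤ 2 * (l * S) := Nat.mul_le_mul_left _ h5
      _ = _ := by ring
  have hNT : N ^ T ≤ (2 * l) ^ T * S ^ T := by
    rw [← mul_pow]
    exact Nat.pow_le_pow_left hcb T
  -- case 2b-i
  rcases lt_or_ge l T with h3 | h3
  · have h4 : N ^ κ ≤ (2 ^ κ) ^ T := by
      calc N ^ κ ≤ (2 ^ a) ^ κ := Nat.pow_le_pow_left hNa.le κ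
        _ = 2 ^ (a * κ) := (pow_mul _ _ _).symm
        _ ≤ 2 ^ (κ * T) := Nat.pow_le_pow_right (by norm_num) (by
            rw [mul_comm]
            exact Nat.mul_le_mul_left _ (by omega))
        _ = _ := pow_mul _ _ _
    have h5 : 2 ^ κ ≤ Λ ^ κ := Nat.pow_le_pow_left (by omega) κ
    have h6 : 2 * l ≤ Λ ^ 2 := ex8 Λ hΛ128 l hlΛ
    calc N ^ (T + κ) = N ^ κ * N ^ T := by rw [pow_add, mul_comm]
      _ ≤ (2 ^ κ) ^ T * ((2 * l) ^ T * S ^ T) := Nat.mul_le_mul h4 hNT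
      _ ≤ (Λ ^ κ) ^ T * ((Λ ^ 2) ^ T * S ^ T) :=
          Nat.mul_le_mul (Nat.pow_le_pow_left h5 T)
            (Nat.mul_le_mul_right _ (Nat.pow_le_pow_left h6 T))
      _ = Λ ^ ((κ + 2) * T) * S ^ T := by
          rw [← mul_assoc, ← pow_mul, ← pow_mul, ← pow_add]
          congr 2
          ring
      _ ≤ _ := Nat.mul_le_mul_right _ (hexp _ (ex2 κ))
  -- case 2b-ii: the main case
  set L := (κ + 1) * a + w with hL
  have hL1 : 0 < L := by
    rw [hL]
    positivity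
  have hLl : L ≤ (κ + 1) * l := by
    rw [hL]
    have e0 : l = w + a := by omega
    have e1 : w ≤ (κ + 1) * w := Nat.le_mul_of_pos_left _ (by omega)
    calc (κ + 1) * a + w ≤ (κ + 1) * a + (κ + 1) * w := by omega
      _ = (κ + 1) * l := by rw [e0]; ring
  have hSL : S * 2 ^ w ≤ 2 ^ L := by
    rw [hL, pow_add]
    refine Nat.mul_le_mul_right _ (h1.le.trans ?_)
    rw [mul_comm (κ + 1) a, pow_mul]
    exact Nat.pow_le_pow_left hNa.le _
  set d := 8 * (3 * T * L + 1) with hd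
  have hdl : d ≤ 32 * (κ + 1) * (l * l) := by
    have e1 : T * L ≤ l * ((κ + 1) * l) := Nat.mul_le_mul h3 hLl
    have e2 : 1 ≤ (κ + 1) * (l * l) := Nat.one_le_iff_ne_zero.2 (by positivity)
    have e3 : l * ((κ + 1) * l) = (κ + 1) * (l * l) := by ring
    rw [e3] at e1
    calc d = 24 * (T * L) + 8 := by rw [hd]; ring
      _ ≤ 24 * ((κ + 1) * (l * l)) + 8 * ((κ + 1) * (l * l)) := by omega
      _ = _ := by ring
  have hd0 : 0 < d := by omega
  obtain ⟨q, hqp, hq1, hq2⟩ := Nat.exists_prime_lt_and_le_two_mul (d * a) (by positivity)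
  have : Fact q.Prime := ⟨hqp⟩
  have hqΛ : q ≤ Λ ^ 3 := by
    calc q ≤ 2 * (d * a) := hq2
      _ ≤ 2 * (32 * (κ + 1) * (l * l) * l) :=
          Nat.mul_le_mul_left _ (Nat.mul_le_mul hdl hal)
      _ = 64 * (κ + 1) * l * (l * l) := by ring
      _ ≤ Λ * (Λ * Λ) := Nat.mul_le_mul le_rfl (Nat.mul_le_mul hlΛ hlΛ)
      _ = Λ ^ 3 := by ring
  have hdΛ : d ≤ Λ ^ 2 := by
    calc d ≤ 32 * (κ + 1) * (l * l) := hdl
      _ = 32 * (κ + 1) * l * l := by ring
      _ ≤ 64 * (κ + 1) * l * l := by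
          exact Nat.mul_le_mul_right _ (Nat.mul_le_mul_right _
            (Nat.mul_le_mul_right _ (by norm_num)))
      _ ≤ Λ * Λ := Nat.mul_le_mul le_rfl hlΛ
      _ = Λ ^ 2 := by ring
  set Q := 4 * (κ + 1) * q ^ (2 * κ) with hQ
  have hQ0 : 0 < Q := by
    have : 0 < q := hqp.pos
    positivity
  have hQΛ : Q ≤ Λ ^ (6 * κ + 1) := by
    calc Q ≤ Λ * (Λ ^ 3) ^ (2 * κ) := by
          exact Nat.mul_le_mul (ex10 κ l hl1) (Nat.pow_le_pow_left hqΛ _)
      _ = Λ ^ (6 * κ + 1) := by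
          rw [← pow_mul, ← pow_succ']
          congr 1
          ring
  have h2Q : 2 * Q ≤ Λ ^ (6 * κ + 2) := by
    calc 2 * Q ≤ Λ * Λ ^ (6 * κ + 1) := Nat.mul_le_mul (by omega) hQΛ
      _ = _ := by ring
  set m := N / Q with hm
  rcases Nat.eq_zero_or_pos m with hm0 | hm0
  · have h4 : N < Q := by
      rcases Nat.lt_or_ge N Q with h | h
      · exact h
      · have := Nat.div_pos h hQ0
        omega
    calc N ^ (T + κ) ≤ N ^ ((κ + 1) * T) := Nat.pow_le_pow_right hN hTk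
      _ ≤ (Λ ^ (6 * κ + 1)) ^ ((κ + 1) * T) := Nat.pow_le_pow_left (h4.le.trans hQΛ) _
      _ = Λ ^ ((6 * κ + 1) * (κ + 1) * T) := by rw [← pow_mul]; congr 1; ring
      _ ≤ Λ ^ ((6 * κ + 10) * (κ + 1) * T) := hexp _ (Nat.mul_le_mul_right _ (by omega))
      _ ≤ _ := Nat.le_mul_of_pos_right _ hST
  have hQm : Q * m ≤ N := Nat.mul_div_le N Q
  have hN2 : N ≤ 2 * Q * m := by
    have h4 : N < Q * m + Q := by
      have := Nat.lt_mul_div_succ N hQ0
      rw [← hm] at this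
      calc N < Q * (m + 1) := this
        _ = _ := by ring
    exact ex9 Q m N hm0 h4
  have hmN : m ≤ N := Nat.div_le_self _ _
  have hN4 : 4 * (κ + 1) * q ^ (2 * κ) * m ≤ N := hQm
  have hmq : m ≤ q ^ a := by
    have : 2 ^ a ≤ q ^ a := Nat.pow_le_pow_left hqp.two_le a
    omega
  have hN2Λ : N ≤ Λ ^ (6 * κ + 2) * m := hN2.trans (Nat.mul_le_mul_right _ h2Q)
  rcases lt_or_ge (m ^ κ) (2 * (2 * 2) ^ T * d) with h4 | h4
  · -- few tests
    have h5 : N ^ κ ≤ Λ ^ ((6 * κ + 2) * κ) * (2 * (2 * 2) ^ T * d) := by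
      calc N ^ κ ≤ (Λ ^ (6 * κ + 2) * m) ^ κ := Nat.pow_le_pow_left hN2Λ κ
        _ = Λ ^ ((6 * κ + 2) * κ) * m ^ κ := by rw [mul_pow, ← pow_mul]
        _ ≤ _ := Nat.mul_le_mul_left _ h4.le
    have h6 : 2 * (2 * 2) ^ T * d ≤ Λ ^ (4 * T) := by
      calc 2 * (2 * 2) ^ T * d ≤ Λ * Λ ^ T * Λ ^ 2 :=
            Nat.mul_le_mul (Nat.mul_le_mul (by omega) (Nat.pow_le_pow_left (by omega) T)) hdΛ
        _ = Λ ^ (T + 3) := by rw [pow_add]; ring
        _ ≤ Λ ^ (4 * T) := Nat.pow_le_pow_right hΛ1 (by omega)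
    have h7 : 2 * l ≤ Λ ^ 2 := ex8 Λ hΛ128 l hlΛ
    have h8 : Λ ^ ((6 * κ + 2) * κ) ≤ Λ ^ ((6 * κ + 2) * κ * T) :=
      Nat.pow_le_pow_right hΛ1 (Nat.le_mul_of_pos_right _ hT)
    calc N ^ (T + κ) = N ^ κ * N ^ T := by rw [pow_add, mul_comm]
      _ ≤ (Λ ^ ((6 * κ + 2) * κ) * (2 * (2 * 2) ^ T * d)) * ((2 * l) ^ T * S ^ T) :=
          Nat.mul_le_mul h5 hNT
      _ ≤ (Λ ^ ((6 * κ + 2) * κ * T) * Λ ^ (4 * T)) * ((Λ ^ 2) ^ T * S ^ T) :=
          Nat.mul_le_mul (Nat.mul_le_mul h8 h6)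
            (Nat.mul_le_mul_right _ (Nat.pow_le_pow_left h7 T))
      _ = Λ ^ (((6 * κ + 2) * κ + 6) * T) * S ^ T := by
          rw [← mul_assoc, ← pow_mul, ← pow_add, ← pow_add]
          congr 2
          ring
      _ ≤ _ := Nat.mul_le_mul_right _ (hexp _ (ex3 κ))
  · -- the main case
    set b := l + 3 with hb
    have hbT : 8 * T ≤ 2 ^ b := by
      have e1 : T ≤ 2 ^ l := by
        have : l < 2 ^ l := Nat.lt_two_pow_self
        omega
      rw [hb, pow_add]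
      omega
    obtain ⟨P, hP2, hPJ, hPJ'⟩ : ∃ P, 2 ≤ P ∧ 2 * (2 * P) ^ T * d ≤ m ^ κ ∧
        m ^ κ < 2 * (2 * (P + 1)) ^ T * d := by
      have hex : ∃ P, m ^ κ < 2 * (2 * P) ^ T * d := by
        refine ⟨m ^ κ + 1, ?_⟩
        have e1 : m ^ κ + 1 ≤ (2 * (m ^ κ + 1)) ^ T := by
          calc m ^ κ + 1 ≤ 2 * (m ^ κ + 1) := by omega
            _ = (2 * (m ^ κ + 1)) ^ 1 := (pow_one _).symm
            _ ≤ _ := Nat.pow_le_pow_right (by omega) hT
        calc m ^ κ < m ^ κ + 1 := Nat.lt_succ_self _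
          _ ≤ (2 * (m ^ κ + 1)) ^ T := e1
          _ ≤ 2 * (2 * (m ^ κ + 1)) ^ T * d := by
              calc (2 * (m ^ κ + 1)) ^ T = 1 * (2 * (m ^ κ + 1)) ^ T * 1 := by ring
                _ ≤ _ := Nat.mul_le_mul (Nat.mul_le_mul_right _ (by norm_num)) hd0
      classical
      set P₀ := Nat.find hex with hP₀
      have hs := Nat.find_spec hex
      have hmin : ∀ n < P₀, ¬ m ^ κ < 2 * (2 * n) ^ T * d := fun n hn => Nat.find_min hex hn
      have h3P : 3 ≤ P₀ := by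
        by_contra hlt
        have hle : P₀ ≤ 2 := by omega
        have e2 : 2 * (2 * P₀) ^ T * d ≤ 2 * (2 * 2) ^ T * d :=
          Nat.mul_le_mul_right _ (Nat.mul_le_mul_left _
            (Nat.pow_le_pow_left (Nat.mul_le_mul_left _ hle) T))
        have e3 : m ^ κ < 2 * (2 * P₀) ^ T * d := hs
        omega
      refine ⟨P₀ - 1, by omega, not_lt.1 (hmin _ (by omega)), ?_⟩
      have e4 : P₀ - 1 + 1 = P₀ := by omega
      rw [e4]
      exact hs
    have hkey := scheme_bound (lam := 3 * T * L) hκ hS hP2 hm0 hmq hq1.le hN4 le_rfl hPJ hbT hSL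
      D'
    -- `m ≤ n₀ b`
    have hmb : m ≤ (2 * S / P + 1) * b := by
      have e1 : L * T * (3 * (m - m / 4)) ≤ L * T * (m + (2 * S / P + 1) * b) := by
        calc L * T * (3 * (m - m / 4)) = 3 * T * L * (m - m / 4) := by ring
          _ ≤ L * (T * (m + (2 * S / P + 1) * b)) := hkey
          _ = _ := by ring
      have e2 := Nat.le_of_mul_le_mul_left e1 (by positivity)
      omega
    have hmP : m * P ≤ (2 * S + P) * b := by
      calc m * P ≤ (2 * S / P + 1) * b * P := Nat.mul_le_mul_right _ hmb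
        _ = (2 * S / P * P + P) * b := by ring
        _ ≤ _ := Nat.mul_le_mul_right _ (Nat.add_le_add_right (Nat.div_mul_le_self _ _) _)
    have hbΛ : 12 * b ≤ Λ ^ 2 := by
      calc 12 * b ≤ 128 * Λ := by omega
        _ ≤ Λ * Λ := Nat.mul_le_mul_right _ hΛ128
        _ = Λ ^ 2 := by ring
    rcases le_or_gt m (3 * b) with h5 | h5
    · have h6 : N ≤ Λ ^ (6 * κ + 4) := by
        calc N ≤ Λ ^ (6 * κ + 2) * m := hN2Λ
          _ ≤ Λ ^ (6 * κ + 2) * Λ ^ 2 := Nat.mul_le_mul_left _ (by omega)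
          _ = _ := by rw [← pow_add]
      calc N ^ (T + κ) ≤ N ^ ((κ + 1) * T) := Nat.pow_le_pow_right hN hTk
        _ ≤ (Λ ^ (6 * κ + 4)) ^ ((κ + 1) * T) := Nat.pow_le_pow_left h6 _
        _ = Λ ^ ((6 * κ + 4) * (κ + 1) * T) := by rw [← pow_mul]; congr 1; ring
        _ ≤ Λ ^ ((6 * κ + 10) * (κ + 1) * T) := hexp _ (Nat.mul_le_mul_right _ (by omega))
        _ ≤ _ := Nat.le_mul_of_pos_right _ hST
    · have hPS : P ≤ S := by
        by_contra hlt
        have hlt' : S ≤ P := by omega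
        have e1 : m * P ≤ 3 * b * P := by
          calc m * P ≤ (2 * S + P) * b := hmP
            _ ≤ (2 * P + P) * b := Nat.mul_le_mul_right _ (by omega)
            _ = _ := by ring
        have e2 := Nat.le_of_mul_le_mul_right e1 (by omega)
        omega
      have h6 : m * (P + 1) ≤ 6 * b * S := by
        calc m * (P + 1) ≤ m * (2 * P) := Nat.mul_le_mul_left _ (by omega)
          _ = 2 * (m * P) := by ring
          _ ≤ 2 * ((2 * S + P) * b) := Nat.mul_le_mul_left _ hmP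
          _ ≤ 2 * ((2 * S + S) * b) :=
              Nat.mul_le_mul_left _ (Nat.mul_le_mul_right _ (by omega))
          _ = _ := by ring
      have h7 : m ^ (T + κ) ≤ 2 * d * (12 * b) ^ T * S ^ T := by
        calc m ^ (T + κ) = m ^ T * m ^ κ := pow_add _ _ _
          _ ≤ m ^ T * (2 * (2 * (P + 1)) ^ T * d) := Nat.mul_le_mul_left _ hPJ'.le
          _ = 2 * d * 2 ^ T * (m * (P + 1)) ^ T := by rw [mul_pow, mul_pow]; ring
          _ ≤ 2 * d * 2 ^ T * (6 * b * S) ^ T :=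
              Nat.mul_le_mul_left _ (Nat.pow_le_pow_left h6 T)
          _ = 2 * d * (2 * (6 * b)) ^ T * S ^ T := by
              rw [mul_pow (6 * b) S T, mul_pow 2 (6 * b) T]; ring
          _ = _ := by
              have e12 : 2 * (6 * b) = 12 * b := by ring
              rw [e12]
      have h8 : 2 * d ≤ Λ ^ (3 * T) := by
        calc 2 * d ≤ Λ * Λ ^ 2 := Nat.mul_le_mul (by omega) hdΛ
          _ = Λ ^ 3 := by ring
          _ ≤ _ := Nat.pow_le_pow_right hΛ1 (by omega)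
      calc N ^ (T + κ) ≤ (Λ ^ (6 * κ + 2) * m) ^ (T + κ) := Nat.pow_le_pow_left hN2Λ _
        _ = (Λ ^ (6 * κ + 2)) ^ (T + κ) * m ^ (T + κ) := mul_pow _ _ _
        _ ≤ (Λ ^ (6 * κ + 2)) ^ ((κ + 1) * T) * (2 * d * (12 * b) ^ T * S ^ T) :=
            Nat.mul_le_mul (Nat.pow_le_pow_right (by positivity) hTk) h7
        _ ≤ (Λ ^ (6 * κ + 2)) ^ ((κ + 1) * T) * (Λ ^ (3 * T) * (Λ ^ 2) ^ T * S ^ T) :=
            Nat.mul_le_mul_left _ (Nat.mul_le_mul_right _
              (Nat.mul_le_mul h8 (Nat.pow_le_pow_left hbΛ T)))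
        _ = Λ ^ (((6 * κ + 2) * (κ + 1) + 5) * T) * S ^ T := by
            rw [← mul_assoc, ← pow_mul, ← pow_mul, ← pow_add, ← pow_add]
            congr 2
            ring
        _ ≤ _ := Nat.mul_le_mul_right _ (hexp _ (ex4 κ))

end Pool.Agent.Lib_helper64.KSD
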