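import Mathlib

/-!
# A greedy choice of few cells that keep a `p / 2` part of the mass of most rows
-/

namespace Pool.Agent.Lib_helper64.KSD

open Finset

section greedy

variable {V C : Type*} [Fintype C] [DecidableEq C]

/-- The deficit of a set `R` of cells. -/
noncomputable def deficit (A : Finset V) (f : V → C → ℝ) (P : ℝ) (R : Finset C) : ℝ :=
  ∑ v ∈ A, max 0 (1 / P - ∑ c ∈ R, f v c)

omit [Fintype C] [DecidableEq C] in
theorem deficit_nonneg (A : Finset V) (f : V → C → ℝ) (P : ℝ) (R : Finset C) :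
    0 ≤ deficit A f P R :=
  sum_nonneg fun _ _ => le_max_left _ _

theorem row_gain (g : C → ℝ) (P : ℝ) (hP : 2 ≤ P) (h0 : ∀ c, 0 ≤ g c) (h1 : ∑ c, g c = 1)
    (hg : ∀ c, g c ≤ 1 / P) (R : Finset C) :
    P / 2 * max 0 (1 / P - ∑ c ∈ R, g c) ≤
      ∑ d, (max 0 (1 / P - ∑ c ∈ R, g c) - max 0 (1 / P - ∑ c ∈ insert d R, g c)) := by
  have hP0 : 0 < P := by linarith
  set μ := ∑ c ∈ R, g c with hμ
  have hμ0 : 0 ≤ μ := sum_nonneg fun c _ => h0 c
  -- every term is at least `g d * β * P` off `R`
  have hterm : ∀ d, (if d ∈ R then 0 else g d * max 0 (1 / P - μ) * P) ≤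
      max 0 (1 / P - μ) - max 0 (1 / P - ∑ c ∈ insert d R, g c) := by
    intro d
    by_cases hd : d ∈ R
    · rw [if_pos hd, insert_eq_of_mem hd]
      simp [hμ]
    · rw [if_neg hd, sum_insert hd, ← hμ]
      rcases le_or_gt (1 / P) μ with h | h
      · have e1 : max 0 (1 / P - μ) = 0 := max_eq_left (by linarith)
        have e2 : max 0 (1 / P - (g d + μ)) = 0 := max_eq_left (by linarith [h0 d])
        rw [e1, e2]
        simp
      · have e1 : max 0 (1 / P - μ) = 1 / P - μ := max_eq_right (by linarith)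
        rw [e1]
        have hb : 0 < 1 / P - μ := by linarith
        have hbP : (1 / P - μ) * P ≤ 1 := by
          rw [sub_mul, one_div, inv_mul_cancel₀ hP0.ne']
          nlinarith
        have hgP : g d * P ≤ 1 := by
          have := hg d
          rwa [le_div_iff₀ hP0] at this
        rcases le_total (1 / P - (g d + μ)) 0 with h2 | h2
        · rw [max_eq_left h2]
          nlinarith [h0 d, mul_nonneg (h0 d) hb.le]
        · rw [max_eq_right h2]
          nlinarith [h0 d, mul_nonneg (h0 d) hb.le]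
  refine le_trans ?_ (sum_le_sum fun d _ => hterm d)
  have hsum : ∑ d, (if d ∈ R then 0 else g d * max 0 (1 / P - μ) * P) =
      (1 - μ) * (max 0 (1 / P - μ) * P) := by
    have : ∀ d, (if d ∈ R then 0 else g d * max 0 (1 / P - μ) * P) =
        g d * (max 0 (1 / P - μ) * P) - (if d ∈ R then g d else 0) * (max 0 (1 / P - μ) * P) := by
      intro d
      split_ifs <;> ring
    rw [sum_congr rfl fun d _ => this d, sum_sub_distrib, ← sum_mul, ← sum_mul, h1,
      sum_ite_mem, univ_inter]
    ring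
  rw [hsum]
  rcases le_or_gt (1 / P) μ with h | h
  · have e1 : max 0 (1 / P - μ) = 0 := max_eq_left (by linarith)
    rw [e1]
    simp
  · have e1 : max 0 (1 / P - μ) = 1 / P - μ := max_eq_right (by linarith)
    rw [e1]
    have hP2 : 1 / P ≤ 1 / 2 := by
      rw [div_le_div_iff₀ hP0 (by norm_num)]
      linarith
    have hb : 0 < 1 / P - μ := by linarith
    nlinarith [mul_pos hb hP0]

theorem exists_good (A : Finset V) (f : V → C → ℝ) (P : ℝ) (hP : 2 ≤ P)
    (hC : 0 < Fintype.card C)
    (h0 : ∀ v ∈ A, ∀ c, 0 ≤ f v c) (h1 : ∀ v ∈ A, ∑ c, f v c = 1)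
    (hf : ∀ v ∈ A, ∀ c, f v c ≤ 1 / P) (R : Finset C) :
    ∃ d, (1 + P / (2 * Fintype.card C)) * deficit A f P (insert d R) ≤ deficit A f P R := by
  have hP0 : 0 < P := by linarith
  have hC0 : (0 : ℝ) < Fintype.card C := by exact_mod_cast hC
  set D := deficit A f P R with hD
  have hD0 : 0 ≤ D := deficit_nonneg A f P R
  set θ : ℝ := P / (2 * Fintype.card C) with hθ
  have hθ0 : 0 < θ := by positivity
  have hsum : P / 2 * D ≤ ∑ d, (D - deficit A f P (insert d R)) := by
    have e : ∑ d, (D - deficit A f P (insert d R)) =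
        ∑ v ∈ A, ∑ d, (max 0 (1 / P - ∑ c ∈ R, f v c) -
          max 0 (1 / P - ∑ c ∈ insert d R, f v c)) := by
      rw [sum_comm]
      refine sum_congr rfl fun d _ => ?_
      rw [hD, deficit, deficit, sum_sub_distrib]
    rw [e, hD, deficit, mul_sum]
    exact sum_le_sum fun v hv => row_gain (f v) P hP (h0 v hv) (h1 v hv) (hf v hv) R
  obtain ⟨d, -, hd⟩ : ∃ d ∈ (univ : Finset C), θ * D ≤ D - deficit A f P (insert d R) := by
    have : Nonempty C := Fintype.card_pos_iff.1 hC
    by_contra hcon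
    push Not at hcon
    have : ∑ d, (D - deficit A f P (insert d R)) < ∑ _d : C, θ * D :=
      sum_lt_sum_of_nonempty univ_nonempty fun d hd => hcon d hd
    rw [sum_const, card_univ, nsmul_eq_mul] at this
    have e2 : (Fintype.card C : ℝ) * (θ * D) = P / 2 * D := by
      rw [hθ]
      field_simp
    linarith
  refine ⟨d, ?_⟩
  have h3 : deficit A f P (insert d R) ≤ (1 - θ) * D := by linarith
  calc (1 + θ) * deficit A f P (insert d R) ≤ (1 + θ) * ((1 - θ) * D) :=
        mul_le_mul_of_nonneg_left h3 (by linarith)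
    _ = D - θ ^ 2 * D := by ring
    _ ≤ D := by nlinarith [sq_nonneg θ]

theorem greedy (A : Finset V) (f : V → C → ℝ) (P : ℝ) (hP : 2 ≤ P)
    (hC : 0 < Fintype.card C)
    (h0 : ∀ v ∈ A, ∀ c, 0 ≤ f v c) (h1 : ∀ v ∈ A, ∑ c, f v c = 1)
    (hf : ∀ v ∈ A, ∀ c, f v c ≤ 1 / P) (n : ℕ) :
    ∃ R : Finset C, R.card ≤ n ∧
      (1 + P / (2 * Fintype.card C)) ^ n * deficit A f P R ≤ A.card / P := by
  have hP0 : 0 < P := by linarith
  have hC0 : (0 : ℝ) < Fintype.card C := by exact_mod_cast hC
  induction n with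
  | zero =>
    refine ⟨∅, by simp, ?_⟩
    have : deficit A f P ∅ = A.card / P := by
      rw [deficit]
      have : ∀ v ∈ A, max 0 (1 / P - ∑ c ∈ (∅ : Finset C), f v c) = 1 / P := by
        intro v _
        rw [sum_empty, sub_zero]
        exact max_eq_right (by positivity)
      rw [sum_congr rfl this, sum_const, nsmul_eq_mul]
      ring
    rw [pow_zero, one_mul, this]
  | succ n ih =>
    obtain ⟨R, hR, hRd⟩ := ih
    obtain ⟨d, hd⟩ := exists_good A f P hP hC h0 h1 hf R
    refine ⟨insert d R, (card_insert_le _ _).trans (by omega), ?_⟩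
    have hθ : 0 ≤ (1 + P / (2 * Fintype.card C)) ^ n := by positivity
    calc (1 + P / (2 * Fintype.card C)) ^ (n + 1) * deficit A f P (insert d R)
        = (1 + P / (2 * Fintype.card C)) ^ n *
          ((1 + P / (2 * Fintype.card C)) * deficit A f P (insert d R)) := by ring
      _ ≤ (1 + P / (2 * Fintype.card C)) ^ n * deficit A f P R :=
          mul_le_mul_of_nonneg_left hd hθ
      _ ≤ _ := hRd

end greedy

/-- One level: rows `v` with sets `Z v` of tests whose cells are `α v j`. At most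
`|A| + (2 S / P + 1) b` cells keep a `1 / (2P)` part of `Z v` for all but a `2 / 2 ^ b` part of the
rows. -/
theorem stage {V J : Type*} [DecidableEq V] [DecidableEq J] {S : ℕ} (hS : 0 < S)
    (A : Finset V) (Z : V → Finset J) (hZ : ∀ v ∈ A, (Z v).Nonempty) (α : V → J → Fin S)
    (P b : ℕ) (hP : 2 ≤ P) :
    ∃ (R : Finset (Fin S)) (A' : Finset V), A' ⊆ A ∧
      R.card ≤ A.card + (2 * S / P + 1) * b ∧
      (A \ A').card * 2 ^ b ≤ 2 * A.card ∧
      ∀ v ∈ A', (Z v).card ≤ 2 * P * ((Z v).filter fun j => α v j ∈ R).card := by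
  classical
  have hP0 : (0 : ℝ) < P := by
    have : 0 < P := by omega
    exact_mod_cast this
  have hP2 : (2 : ℝ) ≤ P := by exact_mod_cast hP
  have hC : 0 < Fintype.card (Fin S) := by rw [Fintype.card_fin]; exact hS
  -- masses
  set f : V → Fin S → ℝ := fun v c =>
    (((Z v).filter fun j => α v j = c).card : ℝ) / (Z v).card with hf
  have hcard : ∀ v ∈ A, (0 : ℝ) < (Z v).card := fun v hv => by
    exact_mod_cast (hZ v hv).card_pos
  have hmass : ∀ v, ∀ R : Finset (Fin S), ∑ c ∈ R, f v c =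
      (((Z v).filter fun j => α v j ∈ R).card : ℝ) / (Z v).card := by
    intro v R
    rw [hf]
    simp only
    rw [← sum_div]
    congr 1
    rw [← Nat.cast_sum]
    congr 1
    rw [card_eq_sum_card_fiberwise (f := fun j => α v j) (t := R)]
    · refine sum_congr rfl fun c hc => ?_
      congr 1
      ext j
      simp only [mem_filter]
      constructor
      · rintro ⟨h1, h2⟩
        exact ⟨⟨h1, by rw [h2]; exact hc⟩, h2⟩
      · rintro ⟨⟨h1, _⟩, h2⟩
        exact ⟨h1, h2⟩
    · intro j hj
      exact (mem_filter.1 hj).2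
  have h1 : ∀ v ∈ A, ∑ c, f v c = 1 := by
    intro v hv
    rw [hmass v univ]
    have : (Z v).filter (fun j => α v j ∈ (univ : Finset (Fin S))) = Z v := by
      apply filter_true_of_mem
      intros
      exact mem_univ _
    rw [this, div_self (hcard v hv).ne']
  have h0 : ∀ v, ∀ c, 0 ≤ f v c := fun v c => by rw [hf]; positivity
  set A₁ : Finset V := A.filter fun v => ∀ c, f v c < 1 / (2 * P) with hA₁
  obtain ⟨R₁, hR₁, hd⟩ := greedy A₁ f P hP2 hC (fun v hv c => h0 v c)
    (fun v hv => h1 v (mem_filter.1 hv).1)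
    (fun v hv c => ((mem_filter.1 hv).2 c).le.trans (by
      apply one_div_le_one_div_of_le hP0
      linarith)) ((2 * S / P + 1) * b)
  rw [Fintype.card_fin] at hd
  -- popular cells of the other rows
  have hpop : ∀ v ∈ A \ A₁, ∃ c, 1 / (2 * (P : ℝ)) ≤ f v c := by
    intro v hv
    rw [mem_sdiff, hA₁, mem_filter] at hv
    have := hv.2
    push Not at this
    exact this hv.1
  have hne : Nonempty (Fin S) := ⟨⟨0, hS⟩⟩
  choose! pc hpc using hpop
  refine ⟨R₁ ∪ (A \ A₁).image pc, (A \ A₁) ∪ A₁.filter fun v =>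
    1 / (2 * (P : ℝ)) ≤ ∑ c ∈ R₁, f v c, ?_, ?_, ?_, ?_⟩
  · exact union_subset sdiff_subset ((filter_subset _ _).trans (filter_subset _ _))
  · refine (card_union_le _ _).trans ?_
    have := (card_image_le (s := A \ A₁) (f := pc)).trans (card_le_card sdiff_subset)
    omega
  · -- bad rows
    have hsub : A \ ((A \ A₁) ∪ A₁.filter fun v => 1 / (2 * (P : ℝ)) ≤ ∑ c ∈ R₁, f v c) ⊆
        A₁.filter fun v => ∑ c ∈ R₁, f v c < 1 / (2 * (P : ℝ)) := by
      intro v hv
      rw [mem_sdiff, mem_union, not_or, mem_sdiff, not_and, not_not] at hv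
      have hv1 := hv.2.1 hv.1
      have hv2 : ¬ 1 / (2 * (P : ℝ)) ≤ ∑ c ∈ R₁, f v c := fun hc =>
        hv.2.2 (mem_filter.2 ⟨hv1, hc⟩)
      exact mem_filter.2 ⟨hv1, not_le.1 hv2⟩
    set B := A₁.filter fun v => ∑ c ∈ R₁, f v c < 1 / (2 * (P : ℝ)) with hB
    have hle : (B.card : ℝ) * (1 / (2 * P)) ≤ deficit A₁ f P R₁ := by
      rw [deficit, ← nsmul_eq_mul, ← sum_const]
      have hBA : B ⊆ A₁ := filter_subset _ _
      refine le_trans ?_ (sum_le_sum_of_subset_of_nonneg hBA
        fun v _ _ => le_max_left _ _)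
      refine sum_le_sum fun v hv => ?_
      have h2 := (mem_filter.1 hv).2
      refine le_trans ?_ (le_max_right _ _)
      have : 1 / (P : ℝ) = 1 / (2 * P) + 1 / (2 * P) := by field_simp; norm_num
      linarith
    have hpow : (2 : ℝ) ^ b ≤ (1 + P / (2 * S)) ^ ((2 * S / P + 1) * b) := by
      rw [pow_mul]
      refine pow_le_pow_left₀ (by norm_num) ?_ b
      have hS0 : (0 : ℝ) < S := by exact_mod_cast hS
      have hb := one_add_mul_le_pow (a := (P : ℝ) / (2 * S)) (by
        have : (0 : ℝ) ≤ P / (2 * S) := by positivity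
        linarith) (2 * S / P + 1)
      refine le_trans ?_ hb
      have hlt : (2 * S : ℝ) / P < ((2 * S / P + 1 : ℕ) : ℝ) := by
        rw [div_lt_iff₀ hP0]
        have := Nat.lt_div_mul_add (a := 2 * S) (b := P) (by omega)
        have h3 : 2 * S < (2 * S / P + 1) * P := by
          rw [add_mul, one_mul]
          exact this
        exact_mod_cast h3
      have h4 : (1 : ℝ) ≤ ((2 * S / P + 1 : ℕ) : ℝ) * (P / (2 * S)) := by
        have h5 : (2 * S : ℝ) / P * (P / (2 * S)) = 1 := by field_simp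
        have h6 : (0 : ℝ) < P / (2 * S) := by positivity
        nlinarith
      linarith
    have hfin : (B.card : ℝ) * 2 ^ b ≤ 2 * A.card := by
      have hdn := deficit_nonneg A₁ f P R₁
      have h7 : (2 : ℝ) ^ b * deficit A₁ f P R₁ ≤ A₁.card / P :=
        (mul_le_mul_of_nonneg_right hpow hdn).trans hd
      have h8 : (2 : ℝ) ^ b * ((B.card : ℝ) * (1 / (2 * P))) ≤ A₁.card / P :=
        (mul_le_mul_of_nonneg_left hle (by positivity)).trans h7
      have h9 : (2 : ℝ) ^ b * ((B.card : ℝ) * (1 / (2 * P))) * (2 * P) ≤ A₁.card / P * (2 * P) :=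
        mul_le_mul_of_nonneg_right h8 (by positivity)
      have e1 : (2 : ℝ) ^ b * ((B.card : ℝ) * (1 / (2 * P))) * (2 * P) = B.card * 2 ^ b := by
        field_simp
      have e2 : (A₁.card : ℝ) / P * (2 * P) = 2 * A₁.card := by field_simp
      rw [e1, e2] at h9
      have h10 : (A₁.card : ℝ) ≤ A.card := by
        exact_mod_cast card_le_card (filter_subset _ _)
      linarith
    have hfin' : B.card * 2 ^ b ≤ 2 * A.card := by exact_mod_cast hfin
    exact (Nat.mul_le_mul_right _ (card_le_card hsub)).trans hfin'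
  · intro v hv
    have hvA : v ∈ A := by
      rcases mem_union.1 hv with h | h
      · exact (mem_sdiff.1 h).1
      · exact (mem_filter.1 (mem_filter.1 h).1).1
    set R := R₁ ∪ (A \ A₁).image pc with hR
    have key : 1 / (2 * (P : ℝ)) ≤ ∑ c ∈ R, f v c := by
      rcases mem_union.1 hv with h | h
      · refine (hpc v h).trans ?_
        refine single_le_sum (f := fun c => f v c) (fun c _ => h0 v c) ?_
        exact mem_union_right _ (mem_image_of_mem _ h)
      · refine (mem_filter.1 h).2.trans ?_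
        exact sum_le_sum_of_subset_of_nonneg subset_union_left fun c _ _ => h0 v c
    rw [hmass v R, div_le_div_iff₀ (by positivity) (hcard v hvA), one_mul] at key
    have : ((Z v).card : ℝ) ≤ ((2 * P * ((Z v).filter fun j => α v j ∈ R).card : ℕ) : ℝ) := by
      push_cast
      linarith
    exact_mod_cast this

end Pool.Agent.Lib_helper64.KSD
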