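import Mathlib

/-!
# Data structures for `k`-set disjointness in the cell-probe model (MP_d985bf_lc)

Memory of `S` cells of `w` bits, arbitrary preprocessing, nondeterministic adaptive queries in
which only the probes are counted.
-/

namespace Pool.Agent.Lib_helper64.KSD

/-- Nondeterministic adaptive query algorithms for a memory with `S` cells of `w` bits: a step
guesses a number or reads a cell; what is done next depends on everything guessed and read
before. -/
inductive Alg (S w : ℕ) : Type
  | answer (b : Bool) : Alg S w
  | guess (next : ℕ → Alg S w) : Alg S w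
  | probe (c : Fin S) (next : Fin (2 ^ w) → Alg S w) : Alg S w

/-- Some sequence of guesses leads to the answer `true` on the memory `M`. -/
def Alg.Accepts {S w : ℕ} (M : Fin S → Fin (2 ^ w)) : Alg S w → Prop
  | Alg.answer b => b = true
  | Alg.guess next => ∃ x, (next x).Accepts M
  | Alg.probe c next => (next (M c)).Accepts M

/-- The algorithm reads at most `T` cells; guesses are free. -/
def Alg.Within {S w : ℕ} : Alg S w → ℕ → Prop
  | Alg.answer _, _ => True
  | Alg.guess next, T => ∀ x, (next x).Within T
  | Alg.probe _ _, 0 => False
  | Alg.probe _ next, T + 1 => ∀ x, (next x).Within T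

/-- A data structure for `k`-set disjointness on families of `N` sets (some may be empty) of
total size at most `N` in a universe of `N` elements: `S` cells of `w` bits, with contents that are
an arbitrary function of the family; the query that names `k` different sets is answered by an
algorithm that reads at most `T` cells and accepts if and only if no element lies in all `k`
sets. -/
structure Scheme (k N S w T : ℕ) where
  mem : (Fin N → Finset (Fin N)) → Fin S → Fin (2 ^ w)
  alg : (Fin k → Fin N) → Alg S w
  within : ∀ q, (alg q).Within T
  correct : ∀ F : Fin N → Finset (Fin N), ∑ i, (F i).card ≤ N → ∀ q : Fin k → Fin N,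
    Function.Injective q → ((alg q).Accepts (mem F) ↔ ∀ x, ¬ ∀ i, x ∈ F (q i))

/-- An accepting computation is witnessed by the contents of at most `T` cells. -/
theorem exists_cert {S w : ℕ} (hS : 0 < S) (M : Fin S → Fin (2 ^ w)) (a : Alg S w) :
    ∀ T : ℕ, a.Within T → a.Accepts M →
      ∃ c : Fin T → Fin S, ∀ M' : Fin S → Fin (2 ^ w), (∀ t, M' (c t) = M (c t)) →
        a.Accepts M' := by
  induction a with
  | answer b =>
    intro T _ hb
    exact ⟨fun _ => ⟨0, hS⟩, fun M' _ => hb⟩
  | guess next ih =>
    intro T hT ⟨x, hx⟩
    obtain ⟨c, hc⟩ := ih x T (hT x) hx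
    exact ⟨c, fun M' h => ⟨x, hc M' h⟩⟩
  | probe c next ih =>
    intro T hT hacc
    cases T with
    | zero => exact absurd hT (by simp [Alg.Within])
    | succ T =>
      obtain ⟨c', hc'⟩ := ih (M c) T (hT (M c)) hacc
      refine ⟨Fin.cons c c', fun M' h => ?_⟩
      have h0 : M' c = M c := by simpa using h 0
      have h1 : (next (M c)).Accepts M' := hc' M' fun t => by simpa using h t.succ
      change (next (M' c)).Accepts M'
      rw [h0]
      exact h1

end Pool.Agent.Lib_helper64.KSD
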